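import Pool.Agent.H44.RG.GDf
import Pool.Agent.H35.EX.ExpConj

/-!
# Module BLP: summable and conical points in a chart

PROOFS. `chord_bilip`: for `x, y` with `φ x = x'`, `φ y = y'` finite: `chord x y = ‖x' - y'‖ / (hs s x' * hs s y')` (`chord_phi`), `chord (φ x) (φ y) = ‖x' - y'‖ / (√(1 + ‖x'‖ ^ 2) * √(1 + ‖y'‖ ^ 2))`. The quotient
`hs s t / √(1 + ‖t‖ ^ 2)` is between two positive constants (`hs s t ^ 2 = ‖t‖ ^ 2 + ‖1 + s t‖ ^ 2 ≤ (1 + (1 + ‖s‖) ^ 2) (1 + ‖t‖ ^ 2)`; and `1 + ‖t‖ ^ 2 ≤ C * hs s t ^ 2` since `1 ≤ ‖1 + s t‖ + ‖s‖ ‖t‖`, so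
`1 ≤ (1 + ‖s‖) * (√2 * hs s t)` etc.). The cases with a point at infinity (`x = s` or `y = s`): by `chord_cont`, both sides are continuous in `(x, y)` and the finite pairs are dense; or directly: `φ s = ∞`, `chord (s : ℂ) y` for `φ y = y'` finite is
`1 / (√(1 + ‖s‖ ^ 2) * hs s y')`... (compute `‖s - y‖ / (√.. √..)` with `y = s + 1 / y'`). `chord (∞) (∞) = 0`.
`summ_conj`: the sequence `a n / L ^ 2`; `(g^[n] (φ x) = φ (f^[n] x))` by `iter_conj`; `φ` is a homeomorphism, so `∀ᶠ y in 𝓝 (φ x)` is `∀ᶠ y in 𝓝 x` composed with `φ.symm`.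
`con_conj`: `δ' = δ / L`: for such an `n` let `U' = φ '' (U ∩ {y | f^[n] y ∈ φ.symm '' {z | chord (φ (f^[n] x)) z < δ / L}})` = `φ '' (U ∩ f^[n] ⁻¹' (φ ⁻¹' {z | chord (φ (f^[n] x)) z < δ / L}))`, open (`f^[n]` continuous: `hf`; `chord_cont`),
contains `φ x` (`chord_zero`), `g^[n]` is injective on it, its image is the disc: for `z` in the disc, `y = φ.symm z` satisfies `chord (f^[n] x) y ≤ L * chord (φ (f^[n] x)) z < δ`, so `y = f^[n] u`, `u ∈ U`.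
-/

set_option autoImplicit false

open Filter Topology Polynomial Metric Set MeasureTheory

namespace Pool.Agent.H44.RG

open Pool.Agent.H44.Fatou Pool.Agent.H32.BT Pool.Agent.H79.Eul Pool.Agent.H79.Par
open Pool.Agent.H35.EX Pool.Agent.H44.RR

theorem hs_comp (s t : ℂ) :
    hs s t ≤ √(2 + 2 * ‖s‖ ^ 2) * √(1 + ‖t‖ ^ 2) ∧
    √(1 + ‖t‖ ^ 2) ≤ √(2 + 2 * ‖s‖ ^ 2) * hs s t := by
  have hM : 0 ≤ 2 + 2 * ‖s‖ ^ 2 := by positivity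
  have h1 : ‖1 + s * t‖ ≤ 1 + ‖s‖ * ‖t‖ := by
    refine (norm_add_le _ _).trans ?_
    rw [norm_one, norm_mul]
  have h2 : 1 ≤ ‖1 + s * t‖ + ‖s‖ * ‖t‖ := by
    have h3 : (1 : ℂ) = (1 + s * t) - s * t := by ring
    calc (1 : ℝ) = ‖(1 : ℂ)‖ := norm_one.symm
      _ = ‖(1 + s * t) - s * t‖ := by rw [← h3]
      _ ≤ ‖1 + s * t‖ + ‖s * t‖ := norm_sub_le _ _
      _ = ‖1 + s * t‖ + ‖s‖ * ‖t‖ := by rw [norm_mul]
  have n1 := norm_nonneg (1 + s * t)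
  have n2 := norm_nonneg s
  have n3 := norm_nonneg t
  constructor
  · unfold hs
    rw [← Real.sqrt_mul hM]
    apply Real.sqrt_le_sqrt
    have h3 : ‖1 + s * t‖ ^ 2 ≤ (1 + ‖s‖ * ‖t‖) ^ 2 := pow_le_pow_left₀ n1 h1 2
    nlinarith [sq_nonneg (1 - ‖s‖ * ‖t‖), sq_nonneg ‖s‖, sq_nonneg ‖t‖]
  · unfold hs
    rw [← Real.sqrt_mul hM]
    apply Real.sqrt_le_sqrt
    have h3 : 1 ≤ (‖1 + s * t‖ + ‖s‖ * ‖t‖) ^ 2 := by nlinarith
    have h4 : (‖1 + s * t‖ + ‖s‖ * ‖t‖) ^ 2 ≤ 2 * ‖1 + s * t‖ ^ 2 + 2 * (‖s‖ ^ 2 * ‖t‖ ^ 2) := by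
      nlinarith [sq_nonneg (‖1 + s * t‖ - ‖s‖ * ‖t‖)]
    nlinarith [mul_nonneg (sq_nonneg ‖s‖) (sq_nonneg ‖1 + s * t‖), sq_nonneg ‖t‖]

theorem chord_bilip {s : ℂ} {φ : OnePoint ℂ ≃ₜ OnePoint ℂ} (hφs : φ s = OnePoint.infty)
    (hφ : ∀ z : ℂ, z ≠ s → φ (z : OnePoint ℂ) = (((z - s)⁻¹ : ℂ) : OnePoint ℂ))
    (hφi : φ OnePoint.infty = ((0 : ℂ) : OnePoint ℂ)) :
    ∃ L : ℝ, 1 ≤ L ∧ ∀ x y, chord (φ x) (φ y) ≤ L * chord x y ∧
      chord x y ≤ L * chord (φ x) (φ y) := by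
  have hM : 0 ≤ 2 + 2 * ‖s‖ ^ 2 := by positivity
  refine ⟨2 + 2 * ‖s‖ ^ 2, by nlinarith [sq_nonneg ‖s‖], ?_⟩
  have hd : Dense {x : OnePoint ℂ | φ x ≠ OnePoint.infty} := by
    have h1 : Dense (Set.range ((↑) : ℂ → OnePoint ℂ)) := OnePoint.denseRange_coe
    have h2 := h1.preimage φ.isOpenMap
    refine h2.mono ?_
    rintro x ⟨w, hw⟩
    show φ x ≠ OnePoint.infty
    rw [← hw]
    exact OnePoint.coe_ne_infty w
  have hd2 : Dense ({x : OnePoint ℂ | φ x ≠ OnePoint.infty} ×ˢ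
      {x : OnePoint ℂ | φ x ≠ OnePoint.infty}) := hd.prod hd
  have c1 : Continuous (fun p : OnePoint ℂ × OnePoint ℂ => chord p.1 p.2) := chord_cont
  have c2 : Continuous (fun p : OnePoint ℂ × OnePoint ℂ => chord (φ p.1) (φ p.2)) :=
    chord_cont.comp ((φ.continuous.comp continuous_fst).prodMk
      (φ.continuous.comp continuous_snd))
  have hcl : IsClosed {p : OnePoint ℂ × OnePoint ℂ |
      chord (φ p.1) (φ p.2) ≤ (2 + 2 * ‖s‖ ^ 2) * chord p.1 p.2 ∧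
      chord p.1 p.2 ≤ (2 + 2 * ‖s‖ ^ 2) * chord (φ p.1) (φ p.2)} :=
    (isClosed_le c2 (c1.const_mul _)).inter (isClosed_le c1 (c2.const_mul _))
  have hsub : ({x : OnePoint ℂ | φ x ≠ OnePoint.infty} ×ˢ
      {x : OnePoint ℂ | φ x ≠ OnePoint.infty}) ⊆ {p : OnePoint ℂ × OnePoint ℂ |
      chord (φ p.1) (φ p.2) ≤ (2 + 2 * ‖s‖ ^ 2) * chord p.1 p.2 ∧
      chord p.1 p.2 ≤ (2 + 2 * ‖s‖ ^ 2) * chord (φ p.1) (φ p.2)} := by
    rintro ⟨x, y⟩ ⟨hx, hy⟩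
    obtain ⟨x', hx'⟩ := OnePoint.ne_infty_iff_exists.1 hx
    obtain ⟨y', hy'⟩ := OnePoint.ne_infty_iff_exists.1 hy
    show chord (φ x) (φ y) ≤ (2 + 2 * ‖s‖ ^ 2) * chord x y ∧
      chord x y ≤ (2 + 2 * ‖s‖ ^ 2) * chord (φ x) (φ y)
    rw [chord_phi hφs hφ hφi hx'.symm hy'.symm, ← hx', ← hy']
    have e : chord (x' : OnePoint ℂ) (y' : OnePoint ℂ) =
      ‖x' - y'‖ / (√(1 + ‖x'‖ ^ 2) * √(1 + ‖y'‖ ^ 2)) := rfl
    rw [e]
    obtain ⟨a1, a2⟩ := hs_comp s x'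
    obtain ⟨b1, b2⟩ := hs_comp s y'
    have p1 := hs_pos s x'
    have p2 := hs_pos s y'
    have q1 : 0 < √(1 + ‖x'‖ ^ 2) := by positivity
    have q2 : 0 < √(1 + ‖y'‖ ^ 2) := by positivity
    have hm : √(2 + 2 * ‖s‖ ^ 2) * √(2 + 2 * ‖s‖ ^ 2) = 2 + 2 * ‖s‖ ^ 2 := Real.mul_self_sqrt hM
    have m0 : 0 ≤ √(2 + 2 * ‖s‖ ^ 2) := Real.sqrt_nonneg _
    have k1 : hs s x' * hs s y' ≤ (2 + 2 * ‖s‖ ^ 2) * (√(1 + ‖x'‖ ^ 2) * √(1 + ‖y'‖ ^ 2)) := by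
      calc hs s x' * hs s y' ≤ (√(2 + 2 * ‖s‖ ^ 2) * √(1 + ‖x'‖ ^ 2)) *
            (√(2 + 2 * ‖s‖ ^ 2) * √(1 + ‖y'‖ ^ 2)) := mul_le_mul a1 b1 p2.le (by positivity)
        _ = (√(2 + 2 * ‖s‖ ^ 2) * √(2 + 2 * ‖s‖ ^ 2)) *
            (√(1 + ‖x'‖ ^ 2) * √(1 + ‖y'‖ ^ 2)) := by ring
        _ = _ := by rw [hm]
    have k2 : √(1 + ‖x'‖ ^ 2) * √(1 + ‖y'‖ ^ 2) ≤ (2 + 2 * ‖s‖ ^ 2) * (hs s x' * hs s y') := by
      calc √(1 + ‖x'‖ ^ 2) * √(1 + ‖y'‖ ^ 2) ≤ (√(2 + 2 * ‖s‖ ^ 2) * hs s x') *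
            (√(2 + 2 * ‖s‖ ^ 2) * hs s y') := mul_le_mul a2 b2 q2.le (by positivity)
        _ = (√(2 + 2 * ‖s‖ ^ 2) * √(2 + 2 * ‖s‖ ^ 2)) * (hs s x' * hs s y') := by ring
        _ = _ := by rw [hm]
    have n0 := norm_nonneg (x' - y')
    constructor
    · rw [← mul_div_assoc, div_le_div_iff₀ (by positivity) (by positivity)]
      calc ‖x' - y'‖ * (hs s x' * hs s y')
          ≤ ‖x' - y'‖ * ((2 + 2 * ‖s‖ ^ 2) * (√(1 + ‖x'‖ ^ 2) * √(1 + ‖y'‖ ^ 2))) :=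
            mul_le_mul_of_nonneg_left k1 n0
        _ = (2 + 2 * ‖s‖ ^ 2) * ‖x' - y'‖ * (√(1 + ‖x'‖ ^ 2) * √(1 + ‖y'‖ ^ 2)) := by ring
    · rw [← mul_div_assoc, div_le_div_iff₀ (by positivity) (by positivity)]
      calc ‖x' - y'‖ * (√(1 + ‖x'‖ ^ 2) * √(1 + ‖y'‖ ^ 2))
          ≤ ‖x' - y'‖ * ((2 + 2 * ‖s‖ ^ 2) * (hs s x' * hs s y')) :=
            mul_le_mul_of_nonneg_left k2 n0
        _ = (2 + 2 * ‖s‖ ^ 2) * ‖x' - y'‖ * (hs s x' * hs s y') := by ring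
  intro x y
  have h1 := closure_minimal hsub hcl
  rw [hd2.closure_eq] at h1
  exact h1 (Set.mem_univ (x, y))

theorem summ_conj {φ : OnePoint ℂ ≃ₜ OnePoint ℂ} {L : ℝ} (hL : 1 ≤ L)
    (h : ∀ x y, chord (φ x) (φ y) ≤ L * chord x y ∧ chord x y ≤ L * chord (φ x) (φ y))
    {f g : OnePoint ℂ → OnePoint ℂ} (hfg : ∀ x, g (φ x) = φ (f x)) {x : OnePoint ℂ}
    (hx : Summ f x) : Summ g (φ x) := by
  obtain ⟨a, ha, hsum, hev⟩ := hx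
  have hL0 : 0 < L := by linarith
  refine ⟨fun n => a n / L ^ 2, fun n => by have := ha n; positivity, ?_, ?_⟩
  · have h1 := hsum.mul_left (L ^ 2)
    refine h1.congr fun n => ?_
    have := ha n
    field_simp
  · intro n
    have ht : Tendsto φ.symm (𝓝 (φ x)) (𝓝 x) := by
      have h2 := φ.symm.continuous.tendsto (φ x)
      rw [φ.symm_apply_apply] at h2
      exact h2
    filter_upwards [ht.eventually (hev n)] with y hy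
    have hy' : φ (φ.symm y) = y := φ.apply_symm_apply y
    have e1 : g^[n] (φ x) = φ (f^[n] x) := iter_conj φ hfg n x
    have e2 : g^[n] y = φ (f^[n] (φ.symm y)) := by
      rw [← iter_conj φ hfg n (φ.symm y), hy']
    rw [e1, e2]
    have h3 := (h (f^[n] x) (f^[n] (φ.symm y))).2
    have h4 := (h x (φ.symm y)).1
    rw [hy'] at h4
    have h5 := ha n
    rw [div_mul_eq_mul_div, div_le_iff₀ (by positivity)]
    calc a n * chord (φ x) y ≤ a n * (L * chord x (φ.symm y)) :=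
          mul_le_mul_of_nonneg_left h4 h5.le
      _ = L * (a n * chord x (φ.symm y)) := by ring
      _ ≤ L * chord (f^[n] x) (f^[n] (φ.symm y)) := mul_le_mul_of_nonneg_left hy hL0.le
      _ ≤ L * (L * chord (φ (f^[n] x)) (φ (f^[n] (φ.symm y)))) :=
          mul_le_mul_of_nonneg_left h3 hL0.le
      _ = chord (φ (f^[n] x)) (φ (f^[n] (φ.symm y))) * L ^ 2 := by ring

theorem con_conj {φ : OnePoint ℂ ≃ₜ OnePoint ℂ} {L : ℝ} (hL : 1 ≤ L)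
    (h : ∀ x y, chord (φ x) (φ y) ≤ L * chord x y ∧ chord x y ≤ L * chord (φ x) (φ y))
    {f g : OnePoint ℂ → OnePoint ℂ} (hf : Continuous f) (hfg : ∀ x, g (φ x) = φ (f x))
    {x : OnePoint ℂ} (hx : Con f x) : Con g (φ x) := by
  obtain ⟨δ, hδ, hfr⟩ := hx
  have hL0 : 0 < L := by linarith
  refine ⟨δ / L, by positivity, hfr.mono ?_⟩
  rintro n ⟨U, hU, hxU, hmap, hinj, hsurj⟩
  have e1 : g^[n] (φ x) = φ (f^[n] x) := iter_conj φ hfg n x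
  have hO : IsOpen {z | chord (φ (f^[n] x)) z < δ / L} :=
    isOpen_lt (chord_cont.comp (continuous_const.prodMk continuous_id)) continuous_const
  refine ⟨φ '' (U ∩ f^[n] ⁻¹' (φ ⁻¹' {z | chord (φ (f^[n] x)) z < δ / L})), ?_, ?_, ?_, ?_, ?_⟩
  · exact φ.isOpenMap _ (hU.inter ((hO.preimage φ.continuous).preimage (hf.iterate n)))
  · refine ⟨x, ⟨hxU, ?_⟩, rfl⟩
    show chord (φ (f^[n] x)) (φ (f^[n] x)) < δ / L
    rw [chord_zero]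
    positivity
  · rintro _ ⟨u, ⟨hu, hu2⟩, rfl⟩
    show chord (g^[n] (φ x)) (g^[n] (φ u)) < δ / L
    rw [e1, iter_conj φ hfg n u]
    exact hu2
  · rintro _ ⟨u, ⟨hu, -⟩, rfl⟩ _ ⟨u2, ⟨hu2, -⟩, rfl⟩ huu
    have h1 : g^[n] (φ u) = g^[n] (φ u2) := huu
    rw [iter_conj φ hfg n u, iter_conj φ hfg n u2] at h1
    rw [hinj hu hu2 (φ.injective h1)]
  · intro z hz
    have hz' : chord (φ (f^[n] x)) z < δ / L := by
      have h1 : chord (g^[n] (φ x)) z < δ / L := hz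
      rw [e1] at h1
      exact h1
    have h2 : chord (f^[n] x) (φ.symm z) < δ := by
      have h3 := (h (f^[n] x) (φ.symm z)).2
      rw [φ.apply_symm_apply] at h3
      rw [lt_div_iff₀ hL0] at hz'
      linarith
    obtain ⟨u, hu, hu2⟩ := hsurj h2
    have h4 : φ (f^[n] u) = z := by
      rw [hu2, φ.apply_symm_apply]
    refine ⟨φ u, ⟨u, ⟨hu, ?_⟩, rfl⟩, ?_⟩
    · show chord (φ (f^[n] x)) (φ (f^[n] u)) < δ / L
      rw [h4]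
      exact hz'
    · show g^[n] (φ u) = z
      rw [iter_conj φ hfg n u, h4]

end Pool.Agent.H44.RG
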