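import Pool.Agent.H44.RG.BLP

/-!
# THEOREM G+: the interface for a general property of the critical value

`HoleT d T`: the interface between the dynamical part and the measure theoretic part for critical values with the property `T`.
`TInv T`: the property `T` is invariant under bilipschitz conjugacies of the sphere. `CEx f x`: Collet-Eckmann.
-/

set_option autoImplicit false

open Filter Topology Polynomial Metric Set MeasureTheory

namespace Pool.Agent.H44.RG

open Pool.Agent.H44.Fatou Pool.Agent.H32.BT Pool.Agent.H79.Eul Pool.Agent.H79.Par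
open Pool.Agent.H35.EX Pool.Agent.H44.RR

/-- the dynamical statement, in a chart, for critical values with the property `T` -/
def HoleT (d : ℕ) (T : (OnePoint ℂ → OnePoint ℂ) → OnePoint ℂ → Prop) : Prop :=
  ∀ v0 : E d, Chart1 v0 → ∀ c : ℂ, wv v0 c = 0 → T (Rf v0) (Rf v0 (c : OnePoint ℂ)) →
    OnePoint.infty ∉ closure (Set.range fun k : ℕ => (Rf v0)^[k] (c : OnePoint ℂ)) →
    ∀ V : Set (OnePoint ℂ), IsOpen V → V.Nonempty →
      (∀ j : ℕ, (Rf v0)^[j] (c : OnePoint ℂ) ∉ V) → Hol v0 c V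

/-- `T` is invariant under bilipschitz conjugacies -/
def TInv (T : (OnePoint ℂ → OnePoint ℂ) → OnePoint ℂ → Prop) : Prop :=
  ∀ (φ : OnePoint ℂ ≃ₜ OnePoint ℂ) (L : ℝ), 1 ≤ L →
    (∀ x y, chord (φ x) (φ y) ≤ L * chord x y ∧ chord x y ≤ L * chord (φ x) (φ y)) →
    ∀ f g : OnePoint ℂ → OnePoint ℂ, Continuous f → (∀ x, g (φ x) = φ (f x)) →
      ∀ x, T f x → T g (φ x)

/-- Collet-Eckmann -/
def CEx (f : OnePoint ℂ → OnePoint ℂ) (x : OnePoint ℂ) : Prop :=
  ∃ C q : ℝ, 0 < C ∧ 1 < q ∧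
    ∀ n, ∀ᶠ y in 𝓝 x, C * q ^ n * chord x y ≤ chord (f^[n] x) (f^[n] y)

theorem tinv_sc : TInv (fun f x => Summ f x ∧ Con f x) := by
  intro φ L hL h f g hf hfg x hx
  exact ⟨summ_conj hL h hfg hx.1, con_conj hL h hf hfg hx.2⟩

theorem tinv_ce : TInv CEx := by
  intro φ L hL h f g hf hfg x hx
  obtain ⟨C, q, hC, hq, hev⟩ := hx
  have hL0 : 0 < L := by linarith
  refine ⟨C / L ^ 2, q, by positivity, hq, ?_⟩
  intro n
  have ht : Tendsto φ.symm (𝓝 (φ x)) (𝓝 x) := by
    have h2 := φ.symm.continuous.tendsto (φ x)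
    rw [φ.symm_apply_apply] at h2
    exact h2
  filter_upwards [ht.eventually (hev n)] with y hy
  have hy' : φ (φ.symm y) = y := φ.apply_symm_apply y
  have e1 : g^[n] (φ x) = φ (f^[n] x) := iter_conj φ hfg n x
  have e2 : g^[n] y = φ (f^[n] (φ.symm y)) := by
    rw [← iter_conj φ hfg n (φ.symm y), hy']
  rw [e1, e2]
  have h3 := (h (f^[n] x) (f^[n] (φ.symm y))).2
  have h4 := (h x (φ.symm y)).1
  rw [hy'] at h4
  have h5 : 0 < C * q ^ n := by positivity
  have e3 : C / L ^ 2 * q ^ n * chord (φ x) y = C * q ^ n * chord (φ x) y / L ^ 2 := by ring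
  rw [e3, div_le_iff₀ (by positivity)]
  calc C * q ^ n * chord (φ x) y ≤ C * q ^ n * (L * chord x (φ.symm y)) :=
        mul_le_mul_of_nonneg_left h4 h5.le
    _ = L * (C * q ^ n * chord x (φ.symm y)) := by ring
    _ ≤ L * chord (f^[n] x) (f^[n] (φ.symm y)) := mul_le_mul_of_nonneg_left hy hL0.le
    _ ≤ L * (L * chord (φ (f^[n] x)) (φ (f^[n] (φ.symm y)))) :=
        mul_le_mul_of_nonneg_left h3 hL0.le
    _ = chord (φ (f^[n] x)) (φ (f^[n] (φ.symm y))) * L ^ 2 := by ring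

/-- positive upper Lyapunov exponent -/
def UL (f : OnePoint ℂ → OnePoint ℂ) (x : OnePoint ℂ) : Prop :=
  ∃ q : ℝ, 1 < q ∧ ∃ᶠ n : ℕ in atTop, ∀ᶠ y in 𝓝 x, q ^ n * chord x y ≤ chord (f^[n] x) (f^[n] y)

/-- the property of THEOREM G+ -/
def TG (f : OnePoint ℂ → OnePoint ℂ) (x : OnePoint ℂ) : Prop :=
  Summ f x ∧ (Con f x ∨ UL f x)

theorem ev_pow {c q q' : ℝ} (hc : 0 < c) (hq' : 0 < q') (h : q' < q) :
    ∀ᶠ n : ℕ in atTop, q' ^ n ≤ c * q ^ n := by
  have h1 : Tendsto (fun n : ℕ => (q' / q) ^ n) atTop (𝓝 0) :=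
    tendsto_pow_atTop_nhds_zero_of_lt_one (by have : 0 < q := by linarith
                                              positivity) ((div_lt_one (by linarith)).2 h)
  filter_upwards [h1.eventually (gt_mem_nhds hc)] with n hn
  have h2 : 0 < q ^ n := pow_pos (by linarith) n
  rw [div_pow, div_lt_iff₀ h2] at hn
  exact hn.le

theorem ul_conj {φ : OnePoint ℂ ≃ₜ OnePoint ℂ} {L : ℝ} (hL : 1 ≤ L)
    (h : ∀ x y, chord (φ x) (φ y) ≤ L * chord x y ∧ chord x y ≤ L * chord (φ x) (φ y))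
    {f g : OnePoint ℂ → OnePoint ℂ} (hfg : ∀ x, g (φ x) = φ (f x)) {x : OnePoint ℂ}
    (hx : UL f x) : UL g (φ x) := by
  obtain ⟨q, hq, hev⟩ := hx
  have hL0 : 0 < L := by linarith
  refine ⟨(1 + q) / 2, by linarith, ?_⟩
  have h0 : ∀ᶠ n : ℕ in atTop, ((1 + q) / 2) ^ n ≤ 1 / L ^ 2 * q ^ n :=
    ev_pow (by positivity) (by linarith) (by linarith)
  refine (hev.and_eventually h0).mono ?_
  rintro n ⟨hn, hn2⟩
  have ht : Tendsto φ.symm (𝓝 (φ x)) (𝓝 x) := by
    have h2 := φ.symm.continuous.tendsto (φ x)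
    rw [φ.symm_apply_apply] at h2
    exact h2
  filter_upwards [ht.eventually hn] with y hy
  have hy' : φ (φ.symm y) = y := φ.apply_symm_apply y
  have e1 : g^[n] (φ x) = φ (f^[n] x) := iter_conj φ hfg n x
  have e2 : g^[n] y = φ (f^[n] (φ.symm y)) := by
    rw [← iter_conj φ hfg n (φ.symm y), hy']
  rw [e1, e2]
  have h3 := (h (f^[n] x) (f^[n] (φ.symm y))).2
  have h4 := (h x (φ.symm y)).1
  rw [hy'] at h4
  have h5 : 0 < q ^ n := pow_pos (by linarith) n
  have h6 : 0 ≤ chord (φ x) y := chord_nn _ _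
  calc ((1 + q) / 2) ^ n * chord (φ x) y ≤ 1 / L ^ 2 * q ^ n * chord (φ x) y :=
        mul_le_mul_of_nonneg_right hn2 h6
    _ = q ^ n * chord (φ x) y / L ^ 2 := by ring
    _ ≤ chord (φ (f^[n] x)) (φ (f^[n] (φ.symm y))) := by
        rw [div_le_iff₀ (by positivity)]
        calc q ^ n * chord (φ x) y ≤ q ^ n * (L * chord x (φ.symm y)) :=
              mul_le_mul_of_nonneg_left h4 h5.le
          _ = L * (q ^ n * chord x (φ.symm y)) := by ring
          _ ≤ L * chord (f^[n] x) (f^[n] (φ.symm y)) := mul_le_mul_of_nonneg_left hy hL0.le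
          _ ≤ L * (L * chord (φ (f^[n] x)) (φ (f^[n] (φ.symm y)))) :=
              mul_le_mul_of_nonneg_left h3 hL0.le
          _ = chord (φ (f^[n] x)) (φ (f^[n] (φ.symm y))) * L ^ 2 := by ring

theorem tinv_tg : TInv TG := by
  intro φ L hL h f g hf hfg x hx
  exact ⟨summ_conj hL h hfg hx.1,
    hx.2.imp (fun k => con_conj hL h hf hfg k) fun k => ul_conj hL h hfg k⟩

/-- Collet-Eckmann values are summable with positive upper Lyapunov exponent -/
theorem tg_of_ce {f : OnePoint ℂ → OnePoint ℂ} {x : OnePoint ℂ} (h : CEx f x) : TG f x := by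
  obtain ⟨C, q, hC, hq, hev⟩ := h
  have hq0 : 0 < q := by linarith
  refine ⟨⟨fun n => C * q ^ n, fun n => by positivity, ?_, hev⟩, Or.inr ⟨(1 + q) / 2,
    by linarith, ?_⟩⟩
  · have h1 : Summable fun n : ℕ => (1 / q) ^ n :=
      summable_geometric_of_lt_one (by positivity) (by rw [div_lt_one hq0]; exact hq)
    have h2 := h1.mul_left (1 / C)
    refine h2.congr fun n => ?_
    rw [div_pow, one_pow, div_mul_div_comm, one_mul]
  · have h0 : ∀ᶠ n : ℕ in atTop, ((1 + q) / 2) ^ n ≤ C * q ^ n :=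
      ev_pow hC (by linarith) (by linarith)
    refine Eventually.frequently (h0.mono fun n hn => ?_)
    filter_upwards [hev n] with y hy
    exact (mul_le_mul_of_nonneg_right hn (chord_nn _ _)).trans hy

end Pool.Agent.H44.RG
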