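import Pool.Agent.H44.RR.CHC
import Pool.Agent.H44.RR.PDF

/-!
# THEOREM G: definitions

`Summ f x`: the derivatives of `f^n` at `x` (in the chordal metric) are not zero and the sum of their inverses is finite.
`Con f x`: `x` is conical: for some `δ > 0` and infinitely many `n`, `f^n` maps a neighbourhood of `x` bijectively onto the disc of
radius `δ` around `f^n(x)`.
`Hole d`: the interface between the dynamical part and the measure theoretic part.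
-/

set_option autoImplicit false

open Filter Topology Polynomial Metric Set MeasureTheory

namespace Pool.Agent.H44.RG

open Pool.Agent.H44.Fatou Pool.Agent.H32.BT Pool.Agent.H79.Eul Pool.Agent.H79.Par
open Pool.Agent.H35.EX Pool.Agent.H44.RR

/-- `x` is summable for `f` -/
def Summ (f : OnePoint ℂ → OnePoint ℂ) (x : OnePoint ℂ) : Prop :=
  ∃ a : ℕ → ℝ, (∀ n, 0 < a n) ∧ Summable (fun n => 1 / a n) ∧
    ∀ n, ∀ᶠ y in 𝓝 x, a n * chord x y ≤ chord (f^[n] x) (f^[n] y)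

/-- `x` is conical for `f` -/
def Con (f : OnePoint ℂ → OnePoint ℂ) (x : OnePoint ℂ) : Prop :=
  ∃ δ : ℝ, 0 < δ ∧ ∃ᶠ n : ℕ in atTop, ∃ U : Set (OnePoint ℂ), IsOpen U ∧ x ∈ U ∧
    BijOn f^[n] U {y | chord (f^[n] x) y < δ}

/-- the orbits of the critical points near `c` of many nearby maps enter the open set `V` -/
def Hol {d : ℕ} (v0 : E d) (c : ℂ) (V : Set (OnePoint ℂ)) : Prop :=
  ∃ c0 : ENNReal, 0 < c0 ∧ ∃ ρ1 : ℝ, 0 < ρ1 ∧ ∃ᶠ r in 𝓝[>] (0 : ℝ), ∃ H : Set (E d),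
    MeasurableSet H ∧ H ⊆ ball (0 : E d) 1 ∧ c0 ≤ volume H ∧ ∀ w ∈ H, ∀ z ∈ ball c ρ1,
      wv (pv v0 (w, r)) z = 0 → ∃ j, (Rf (pv v0 (w, r)))^[j] (z : OnePoint ℂ) ∈ V

/-- the dynamical statement, in a chart -/
def Hole (d : ℕ) : Prop :=
  ∀ v0 : E d, Chart1 v0 → ∀ c : ℂ, wv v0 c = 0 → Summ (Rf v0) (Rf v0 (c : OnePoint ℂ)) →
    Con (Rf v0) (Rf v0 (c : OnePoint ℂ)) →
    OnePoint.infty ∉ closure (Set.range fun k : ℕ => (Rf v0)^[k] (c : OnePoint ℂ)) →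
    ∀ V : Set (OnePoint ℂ), IsOpen V → V.Nonempty →
      (∀ j : ℕ, (Rf v0)^[j] (c : OnePoint ℂ) ∉ V) → Hol v0 c V

end Pool.Agent.H44.RG
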