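import Pool.Agent.H44.RG.PlD
import Pool.Agent.H44.RR.QCH

/-!
# Module PLE: the orbit in the plane

PROOFS. `z k = it v0 k c`, `(Rf v0)^[k] c = z k` (`h0.fin`, `crit_of_wr`, `orb_all`). `pl_bdd`: the complement of the closure of the orbit is a neighbourhood of `∞` (`nhds_infty_norm`, H80/AJ/Main: it contains all `z` with `R < ‖z‖`).
`pl_den`: `K = closure (range z)` is compact (`pl_bdd`). `ev v0.2 u ≠ 0` for `u ∈ K`: otherwise `ev v0.1 u ≠ 0` (coprime) and there is a sequence (or a filter) of indices with `z k → u`, so `z (k + 1) = ev v0.1 (z k) / ev v0.2 (z k)` is unbounded, against `pl_bdd`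
(`‖ev v0.1 (z k)‖ ≤ R * ‖ev v0.2 (z k)‖` for all `k`, so by continuity `‖ev v0.1 u‖ ≤ R * ‖ev v0.2 u‖ = 0`). The open set `{ev v0.2 ≠ 0}` contains a neighbourhood `cthickening` of the compact set `K` of some radius `2 ε1`; the minimum of `‖ev v0.2‖` on the compact set `cthickening ε1 K` is positive.
`pl_sum`: `x = z 1`; for `k` and `y = x + h`, `h → 0`: `a k * chord x y ≤ chord (f^[k] x) (f^[k] y)`, `f^[k] y = it v0 k (x + h)` for small `h` (`orb_near`, `rat_it`), `chord` of finite points is `‖u - w‖ / (√(1 + ‖u‖ ^ 2) * √(1 + ‖w‖ ^ 2))`. Divide by `‖h‖`, `h → 0` (`it v0 k` has the derivative `trD v0 k x` at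
`x`: `orb_deriv`): `a k / (1 + ‖x‖ ^ 2) ≤ ‖trD v0 k x‖ / (1 + ‖z (k + 1)‖ ^ 2) ≤ ‖trD v0 k x‖` (compare `expConj_lim` in H35/EX/ExpConj). So `trD v0 k x ≠ 0` and `‖trD v0 k x‖⁻¹ ≤ (1 + ‖x‖ ^ 2) * (1 / a k)`: summable.
-/

set_option autoImplicit false

open Filter Topology Polynomial Metric Set

namespace Pool.Agent.H44.RG

open Pool.Agent.H44.Fatou Pool.Agent.H32.BT Pool.Agent.H79.Eul Pool.Agent.H79.Par
open Pool.Agent.H35.EX Pool.Agent.H44.RR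

theorem pl_bdd {d : ℕ} {v0 : E d} {c : ℂ}
    (hfin : ∀ j : ℕ, (Rf v0)^[j] (c : OnePoint ℂ) ≠ OnePoint.infty)
    (hinf : OnePoint.infty ∉ closure (Set.range fun k : ℕ => (Rf v0)^[k] (c : OnePoint ℂ))) :
    ∃ R : ℝ, ∀ k, ‖it v0 k c‖ ≤ R := by
  obtain ⟨R, hR⟩ := Pool.Agent.H80.AJ.nhds_infty_norm
    (isClosed_closure.isOpen_compl.mem_nhds hinf)
  refine ⟨R, fun k => ?_⟩
  by_contra hcon
  push Not at hcon
  have h1 := hR _ hcon
  rw [← (orb_all hfin).2 k] at h1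
  exact h1 (subset_closure ⟨k, rfl⟩)

theorem pl_den {d : ℕ} {v0 : E d} (hcop : IsCoprime (pol v0.1) (pol v0.2)) {c : ℂ}
    (hfin : ∀ j : ℕ, (Rf v0)^[j] (c : OnePoint ℂ) ≠ OnePoint.infty)
    (hinf : OnePoint.infty ∉ closure (Set.range fun k : ℕ => (Rf v0)^[k] (c : OnePoint ℂ))) :
    ∃ ε1 β : ℝ, 0 < ε1 ∧ 0 < β ∧ ∀ k, ∀ z ∈ ball (it v0 k c) ε1, β ≤ ‖ev v0.2 z‖ := by
  obtain ⟨R, hR⟩ := pl_bdd hfin hinf
  have horb := (orb_all hfin).1
  obtain ⟨K, hK⟩ : ∃ K, K = closure (Set.range fun k : ℕ => it v0 k c) := ⟨_, rfl⟩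
  have hKc : IsCompact K := by
    rw [hK]
    apply Bornology.IsBounded.isCompact_closure
    rw [isBounded_iff_forall_norm_le]
    refine ⟨R, ?_⟩
    rintro _ ⟨k, rfl⟩
    exact hR k
  have hmem : ∀ k, it v0 k c ∈ K := fun k => by
    rw [hK]
    exact subset_closure ⟨k, rfl⟩
  have hc1 : Continuous fun z : ℂ => ‖ev v0.1 z‖ :=
    (ev_cont.comp (Continuous.prodMk continuous_const continuous_id)).norm
  have hc2 : Continuous fun z : ℂ => ‖ev v0.2 z‖ :=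
    (ev_cont.comp (Continuous.prodMk continuous_const continuous_id)).norm
  have hle : ∀ u ∈ K, ‖ev v0.1 u‖ ≤ R * ‖ev v0.2 u‖ := by
    have hcl : IsClosed {u : ℂ | ‖ev v0.1 u‖ ≤ R * ‖ev v0.2 u‖} :=
      isClosed_le hc1 (continuous_const.mul hc2)
    have hsub : (Set.range fun k : ℕ => it v0 k c) ⊆ {u : ℂ | ‖ev v0.1 u‖ ≤ R * ‖ev v0.2 u‖} := by
      rintro _ ⟨k, rfl⟩
      have h1 := (horb (k + 1) k (Nat.lt_succ_self k)).1
      have h2 := hR (k + 1)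
      have h3 : it v0 (k + 1) c = ev v0.1 (it v0 k c) / ev v0.2 (it v0 k c) := rfl
      rw [h3, norm_div, div_le_iff₀ (norm_pos_iff.2 h1)] at h2
      exact h2
    intro u hu
    rw [hK] at hu
    exact closure_minimal hsub hcl hu
  have hne : ∀ u ∈ K, ev v0.2 u ≠ 0 := by
    intro u hu h0
    have h1 := hle u hu
    rw [h0, norm_zero, mul_zero] at h1
    have h2 : ev v0.1 u = 0 := norm_eq_zero.1 (le_antisymm h1 (norm_nonneg _))
    rw [← pol_eval] at h0 h2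
    obtain ⟨s, t, hst⟩ := hcop
    have h3 := congrArg (fun p => p.eval u) hst
    simp only [eval_add, eval_mul, eval_one] at h3
    rw [h0, h2, mul_zero, mul_zero, add_zero] at h3
    exact zero_ne_one h3
  have hopen : IsOpen {z : ℂ | 0 < ‖ev v0.2 z‖} := isOpen_lt continuous_const hc2
  obtain ⟨ε, hε, hεK⟩ := hKc.exists_cthickening_subset_open hopen
    fun u hu => norm_pos_iff.2 (hne u hu)
  have hKc' : IsCompact (cthickening ε K) := hKc.cthickening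
  obtain ⟨u, hu, hmin⟩ := hKc'.exists_isMinOn
    ⟨it v0 0 c, self_subset_cthickening K (hmem 0)⟩ hc2.continuousOn
  refine ⟨ε, ‖ev v0.2 u‖, hε, hεK hu, fun k z hz => ?_⟩
  exact hmin (thickening_subset_cthickening ε K (ball_subset_thickening (hmem k) ε hz))

theorem pl_low {d : ℕ} {v0 : E d} {c : ℂ}
    (hfin : ∀ j : ℕ, (Rf v0)^[j] (c : OnePoint ℂ) ≠ OnePoint.infty) {a : ℕ → ℝ}
    (ha : ∀ n, 0 < a n)
    (h : ∀ n, ∀ᶠ y in 𝓝 (Rf v0 (c : OnePoint ℂ)), a n * chord (Rf v0 (c : OnePoint ℂ)) y ≤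
      chord ((Rf v0)^[n] (Rf v0 (c : OnePoint ℂ))) ((Rf v0)^[n] y)) :
    ∀ k, a k / (1 + ‖it v0 1 c‖ ^ 2) ≤ ‖trD v0 k (it v0 1 c)‖ := by
  obtain ⟨x, hx⟩ : ∃ x, x = it v0 1 c := ⟨_, rfl⟩
  rw [← hx]
  have hfx : Rf v0 (c : OnePoint ℂ) = (x : OnePoint ℂ) := by
    have h1 := (orb_all hfin).2 1
    rw [Function.iterate_one] at h1
    rw [h1, hx]
  have hfin' : ∀ j : ℕ, (Rf v0)^[j] (x : OnePoint ℂ) ≠ OnePoint.infty := by
    intro j
    rw [← hfx, ← Function.iterate_succ_apply]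
    exact hfin (j + 1)
  obtain ⟨horb, hit⟩ := orb_all hfin'
  rw [hfx] at h
  have hx1 : 0 < 1 + ‖x‖ ^ 2 := by positivity
  intro k
  have hder := tr_hasDerivAt v0 x k fun i hi => (horb k i hi).1
  have hslope := (hasDerivAt_iff_tendsto_slope.1 hder).norm
  have h1 : ∀ᶠ y : ℂ in 𝓝 x, ∀ j < k, ev v0.2 (it v0 j y) ≠ 0 := by
    have h2 := orb_near (horb k)
    have h3 : Tendsto (fun y : ℂ => (v0, y)) (𝓝 x) (𝓝 (v0, x)) :=
      (Continuous.prodMk continuous_const continuous_id).tendsto x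
    exact h3.eventually h2
  have h2 : ∀ᶠ y : ℂ in 𝓝 x, a k * chord (x : OnePoint ℂ) (y : OnePoint ℂ) ≤
      chord ((Rf v0)^[k] (x : OnePoint ℂ)) ((Rf v0)^[k] (y : OnePoint ℂ)) :=
    (OnePoint.continuous_coe.tendsto x).eventually (h k)
  have h3 : Tendsto (fun y : ℂ => a k / (√(1 + ‖x‖ ^ 2) * √(1 + ‖y‖ ^ 2))) (𝓝[≠] x)
      (𝓝 (a k / (1 + ‖x‖ ^ 2))) := by
    have h4 : Continuous fun y : ℂ => a k / (√(1 + ‖x‖ ^ 2) * √(1 + ‖y‖ ^ 2)) := by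
      apply Continuous.div continuous_const
      · exact continuous_const.mul
          (Real.continuous_sqrt.comp (continuous_const.add (continuous_norm.pow 2)))
      · intro y
        positivity
    have h5 : Tendsto (fun y : ℂ => a k / (√(1 + ‖x‖ ^ 2) * √(1 + ‖y‖ ^ 2))) (𝓝[≠] x)
        (𝓝 (a k / (√(1 + ‖x‖ ^ 2) * √(1 + ‖x‖ ^ 2)))) :=
      (h4.tendsto x).mono_left nhdsWithin_le_nhds
    rwa [Real.mul_self_sqrt hx1.le] at h5
  refine le_of_tendsto_of_tendsto h3 hslope ?_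
  filter_upwards [nhdsWithin_le_nhds h1, nhdsWithin_le_nhds h2, self_mem_nhdsWithin]
    with y hy1 hy2 hy3
  have hyx : 0 < ‖y - x‖ := by
    rw [norm_pos_iff, sub_ne_zero]
    exact hy3
  rw [hit k, rat_it hy1] at hy2
  have e1 : chord (x : OnePoint ℂ) (y : OnePoint ℂ) =
      ‖x - y‖ / (√(1 + ‖x‖ ^ 2) * √(1 + ‖y‖ ^ 2)) := rfl
  have e2 : chord ((it v0 k x : ℂ) : OnePoint ℂ) ((it v0 k y : ℂ) : OnePoint ℂ) =
      ‖it v0 k x - it v0 k y‖ / (√(1 + ‖it v0 k x‖ ^ 2) * √(1 + ‖it v0 k y‖ ^ 2)) := rfl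
  rw [e1, e2] at hy2
  have h6 : ‖it v0 k x - it v0 k y‖ / (√(1 + ‖it v0 k x‖ ^ 2) * √(1 + ‖it v0 k y‖ ^ 2)) ≤
      ‖it v0 k x - it v0 k y‖ := by
    apply div_le_self (norm_nonneg _)
    have h7 : ∀ t : ℝ, 0 ≤ t → 1 ≤ √(1 + t ^ 2) := by
      intro t _
      rw [Real.one_le_sqrt]
      nlinarith
    have h8 := h7 _ (norm_nonneg (it v0 k x))
    have h9 := h7 _ (norm_nonneg (it v0 k y))
    nlinarith
  have h7 := hy2.trans h6
  rw [slope_def_field, norm_div, le_div_iff₀ hyx]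
  rw [norm_sub_rev x y, norm_sub_rev (it v0 k x)] at h7
  calc a k / (√(1 + ‖x‖ ^ 2) * √(1 + ‖y‖ ^ 2)) * ‖y - x‖ =
        a k * (‖y - x‖ / (√(1 + ‖x‖ ^ 2) * √(1 + ‖y‖ ^ 2))) := by ring
    _ ≤ ‖it v0 k y - it v0 k x‖ := h7

theorem pl_sum {d : ℕ} {v0 : E d} {c : ℂ}
    (hfin : ∀ j : ℕ, (Rf v0)^[j] (c : OnePoint ℂ) ≠ OnePoint.infty)
    (hS : Summ (Rf v0) (Rf v0 (c : OnePoint ℂ))) :
    (∀ k, trD v0 k (it v0 1 c) ≠ 0) ∧ Summable fun k => ‖trD v0 k (it v0 1 c)‖⁻¹ := by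
  obtain ⟨a, ha, hsum, hexp⟩ := hS
  have key := pl_low hfin ha hexp
  have hx1 : 0 < 1 + ‖it v0 1 c‖ ^ 2 := by positivity
  have hpos : ∀ k, 0 < ‖trD v0 k (it v0 1 c)‖ := fun k => (div_pos (ha k) hx1).trans_le (key k)
  refine ⟨fun k => norm_pos_iff.1 (hpos k), ?_⟩
  refine Summable.of_nonneg_of_le (fun k => (inv_pos.2 (hpos k)).le) (fun k => ?_)
    (hsum.mul_left (1 + ‖it v0 1 c‖ ^ 2))
  have h1 := inv_anti₀ (div_pos (ha k) hx1) (key k)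
  rw [inv_div] at h1
  rw [mul_one_div]
  exact h1

end Pool.Agent.H44.RG
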