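import Pool.Agent.H80.AJ.Distort
import Pool.Agent.H80.AJ.Cover

/-!
# Module PLC: univalent functions omitting a value

PROOFS. `koe_est`: by `univ_cover` (H80/AJ/Cover) at `q`: `ball (m q) (δ * ‖deriv m q‖ / 16) ⊆ m '' ball q δ` does not contain `e`, so `δ * ‖deriv m q‖ / 16 ≤ ‖m q - e‖`. By `distort_lip` (H80/AJ/Distort) with `v = w' = q`:
`‖m z - m q‖ ≤ KK * ‖deriv m q‖ * ‖z - q‖` for `z ∈ closedBall q (δ / 2)`; `‖z - q‖ < κ * δ ≤ δ / 2`.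
`koe_inv`: `x = s + 1 / m z`, `y = s + 1 / m q`; `‖m q‖ ≥ μ0 := 1 / (R + ‖s‖ + 1)` (`1 / m q = y - s`, `‖y - s‖ ≤ R + ‖s‖`). Let `η = 16 KK κ`: `‖m z - m q‖ ≤ η (‖m q‖ + ‖e‖) ≤ η (1 + ‖e‖ / μ0) ‖m q‖`; choose `κ` so small that
`η (1 + ‖e‖ / μ0) ≤ 1 / 2` and `2 η (1 + ‖e‖ / μ0) / μ0 < ε0`. Then `‖m z‖ ≥ ‖m q‖ / 2 > 0` and `‖x - y‖ = ‖m q - m z‖ / (‖m z‖ ‖m q‖) ≤ 2 η (1 + ‖e‖ / μ0) / ‖m q‖ ≤ 2 η (1 + ‖e‖ / μ0) / μ0`.
-/

set_option autoImplicit false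

open Filter Topology Metric Set

namespace Pool.Agent.H44.RG

open Pool.Agent.H80.AJ

theorem koe_est {m : ℂ → ℂ} {q e : ℂ} {δ κ : ℝ} (hδ : 0 < δ)
    (hm : DifferentiableOn ℂ m (ball q δ)) (hi : InjOn m (ball q δ))
    (hne : ∀ z ∈ ball q δ, m z ≠ e) (hκ : 0 < κ) (hκ1 : κ ≤ 1 / 2) :
    ∀ z ∈ ball q (κ * δ), ‖m z - m q‖ ≤ 16 * KK * κ * ‖m q - e‖ := by
  intro z hz
  have hKK := KK_pos
  have hc := univ_cover hδ hm hi
  have h1 : δ * ‖deriv m q‖ / 16 ≤ ‖m q - e‖ := by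
    by_contra h
    rw [not_le] at h
    have h2 : e ∈ ball (m q) (δ * ‖deriv m q‖ / 16) := by
      rw [mem_ball, dist_eq_norm, norm_sub_rev]
      exact h
    obtain ⟨w, hw, hwe⟩ := hc h2
    exact hne w hw hwe
  rw [mem_ball, dist_eq_norm] at hz
  have hq : q ∈ closedBall q (δ / 2) := mem_closedBall_self (by linarith)
  have hκδ : κ * δ ≤ δ / 2 := by nlinarith
  have hzc : z ∈ closedBall q (δ / 2) := by
    rw [mem_closedBall, dist_eq_norm]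
    linarith
  have h3 := distort_lip hδ hm hi hzc hq hq
  have hd0 : 0 ≤ ‖deriv m q‖ := norm_nonneg _
  calc ‖m z - m q‖ ≤ KK * ‖deriv m q‖ * ‖z - q‖ := h3
    _ ≤ KK * ‖deriv m q‖ * (κ * δ) :=
        mul_le_mul_of_nonneg_left hz.le (mul_nonneg hKK.le hd0)
    _ = 16 * KK * κ * (δ * ‖deriv m q‖ / 16) := by ring
    _ ≤ 16 * KK * κ * ‖m q - e‖ := mul_le_mul_of_nonneg_left h1 (by positivity)

theorem koe_inv (s e : ℂ) (R : ℝ) {ε0 : ℝ} (hε : 0 < ε0) : ∃ κ : ℝ, 0 < κ ∧ κ ≤ 1 / 2 ∧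
    ∀ (m : ℂ → ℂ) (q : ℂ) (δ : ℝ), 0 < δ → DifferentiableOn ℂ m (ball q δ) →
      InjOn m (ball q δ) → (∀ z ∈ ball q δ, m z ≠ e) → m q ≠ 0 → ‖s + (m q)⁻¹‖ ≤ R →
      ∀ z ∈ ball q (κ * δ), m z ≠ 0 ∧ ‖(s + (m z)⁻¹) - (s + (m q)⁻¹)‖ < ε0 := by
  have hKK := KK_pos
  have hKK1 := one_le_KK
  obtain ⟨S, hS⟩ : ∃ S : ℝ, S = |R| + ‖s‖ + 1 := ⟨_, rfl⟩
  have hS1 : 1 ≤ S := by
    rw [hS]
    have := abs_nonneg R
    have := norm_nonneg s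
    linarith
  obtain ⟨L, hL⟩ : ∃ L : ℝ, L = 1 + ‖e‖ * S := ⟨_, rfl⟩
  have hL1 : 1 ≤ L := by
    rw [hL]
    have : 0 ≤ ‖e‖ * S := mul_nonneg (norm_nonneg _) (by linarith)
    linarith
  obtain ⟨η, hη⟩ : ∃ η : ℝ, η = min (1 / 2) (ε0 / (4 * S)) / L := ⟨_, rfl⟩
  have hmin : 0 < min (1 / 2 : ℝ) (ε0 / (4 * S)) := lt_min (by norm_num) (by positivity)
  have hη0 : 0 < η := by rw [hη]; positivity
  have hηL : η * L = min (1 / 2 : ℝ) (ε0 / (4 * S)) := by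
    rw [hη, div_mul_cancel₀]
    linarith
  have hηL1 : η * L ≤ 1 / 2 := by rw [hηL]; exact min_le_left _ _
  have hηL2 : η * L ≤ ε0 / (4 * S) := by rw [hηL]; exact min_le_right _ _
  have hη1 : η ≤ 1 / 2 := by nlinarith
  refine ⟨η / (16 * KK), by positivity, ?_, ?_⟩
  · rw [div_le_iff₀ (by positivity)]
    nlinarith
  · intro m q δ hδ hm hi hne hq0 hR z hz
    have hκ1 : η / (16 * KK) ≤ 1 / 2 := by
      rw [div_le_iff₀ (by positivity)]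
      nlinarith
    have h1 := koe_est hδ hm hi hne (by positivity : 0 < η / (16 * KK)) hκ1 z hz
    have h2 : 16 * KK * (η / (16 * KK)) = η := by
      field_simp
    rw [h2] at h1
    have hmq : 0 < ‖m q‖ := norm_pos_iff.2 hq0
    have h3 : ‖(m q)⁻¹‖ ≤ S := by
      have h4 : (m q)⁻¹ = (s + (m q)⁻¹) - s := by ring
      rw [h4, hS]
      refine (norm_sub_le _ _).trans ?_
      have := le_abs_self R
      linarith
    have h5 : 1 ≤ S * ‖m q‖ := by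
      rw [norm_inv] at h3
      have h6 := mul_le_mul_of_nonneg_right h3 hmq.le
      rwa [inv_mul_cancel₀ hmq.ne'] at h6
    have h6 : ‖m z - m q‖ ≤ η * L * ‖m q‖ := by
      refine h1.trans ?_
      have h7 : ‖m q - e‖ ≤ L * ‖m q‖ := by
        refine (norm_sub_le _ _).trans ?_
        rw [hL]
        have h8 : ‖e‖ ≤ ‖e‖ * (S * ‖m q‖) := le_mul_of_one_le_right (norm_nonneg _) h5
        nlinarith
      calc η * ‖m q - e‖ ≤ η * (L * ‖m q‖) := mul_le_mul_of_nonneg_left h7 hη0.le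
        _ = η * L * ‖m q‖ := by ring
    have h7 : ‖m z - m q‖ ≤ 1 / 2 * ‖m q‖ :=
      h6.trans (mul_le_mul_of_nonneg_right hηL1 hmq.le)
    have h8 : ‖m q‖ / 2 ≤ ‖m z‖ := by
      have h9 : ‖m q‖ ≤ ‖m z‖ + ‖m z - m q‖ := by
        have h10 : m q = m z - (m z - m q) := by ring
        calc ‖m q‖ = ‖m z - (m z - m q)‖ := by rw [← h10]
          _ ≤ ‖m z‖ + ‖m z - m q‖ := norm_sub_le _ _
      linarith
    have hmz : 0 < ‖m z‖ := by linarith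
    have hz0 : m z ≠ 0 := norm_pos_iff.1 hmz
    refine ⟨hz0, ?_⟩
    have h9 : (s + (m z)⁻¹) - (s + (m q)⁻¹) = (m q - m z) * ((m z)⁻¹ * (m q)⁻¹) := by
      field_simp
      ring
    rw [h9, norm_mul, norm_mul, norm_inv, norm_inv, norm_sub_rev]
    have h10 : ‖m z‖⁻¹ ≤ 2 * ‖m q‖⁻¹ := by
      rw [inv_le_comm₀ hmz (by positivity), mul_inv, inv_inv]
      linarith
    have h11 : ‖m q‖⁻¹ ≤ S := by
      rw [← norm_inv]
      exact h3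
    have hi0 : 0 < ‖m q‖⁻¹ := inv_pos.2 hmq
    calc ‖m z - m q‖ * (‖m z‖⁻¹ * ‖m q‖⁻¹) ≤ (η * L * ‖m q‖) * ((2 * ‖m q‖⁻¹) * ‖m q‖⁻¹) := by
          refine mul_le_mul h6 (mul_le_mul_of_nonneg_right h10 hi0.le) (by positivity) ?_
          positivity
      _ = 2 * (η * L) * ‖m q‖⁻¹ := by field_simp
      _ ≤ 2 * (ε0 / (4 * S)) * S := by
          refine mul_le_mul (mul_le_mul_of_nonneg_left hηL2 (by norm_num)) h11 hi0.le
            (by positivity)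
      _ = ε0 / 2 := by field_simp; ring
      _ < ε0 := by linarith

end Pool.Agent.H44.RG
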