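import Pool.Agent.H44.RG.PlD
import Pool.Agent.H79.PJ.RIter
import Pool.Agent.H32.BT.Mob
import Pool.Agent.H80.AJ.Distort

/-!
# Module PLH: the inverse branches are holomorphic in the chart `1 / (z - s)`, `s` an omitted point

PROOF. `φ (H z) ≠ ∞ = φ s`, so there is a function `m` with `φ (H z) = m z` on the ball; it is continuous on the ball (`φ.continuous`, `OnePoint.isOpenEmbedding_coe` is inducing) and injective. Let `g = rat (cj1 s e P Q) (cj2 s e P Q)` (`e = max ..`; the last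
property of `exists_mob s`, H32/BT/Mob; the homeomorphism there has the same values as `φ`, or take the conjugacy `hconj` from the hypothesis), `g (φ y) = φ (rat P Q y)`, `g^[k] (φ y) = φ ((rat P Q)^[k] y)` (`iter_conj`), and coprime `A, B` with `rat A B = g^[k]` (`rat_iter`, H79/PJ/RIter).
Fix `z0` in the ball, `u0 = m z0`. `rat A B u0 = φ z0`. `A.eval u0 ≠ 0` (otherwise `B.eval u0 ≠ 0` and `rat A B u0 = 0 = φ ∞`, but `φ z0 ≠ φ ∞`). Near `u0` `G u = s + B.eval u / A.eval u` is holomorphic and `φ.symm (rat A B u) = G u` (if `B.eval u ≠ 0`: `rat A B u = A u / B u = φ (s + B u / A u)`;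
if `B.eval u = 0`: `rat A B u = ∞ = φ s`). So `G (m z) = φ.symm (g^[k] (φ (H z))) = (rat P Q)^[k] (H z) = z` for `z` near `z0`. `G` is injective near `u0`: `hloc` gives a neighbourhood `W` of `H z0` on which `(rat P Q)^[k]` is injective, and `G u = (rat P Q)^[k] (φ.symm u)`. So
`deriv G u0 ≠ 0` (`deriv_ne`, H80/AJ/Distort, on a small ball), and `HasDerivAt.of_local_left_inverse` gives that `m` is differentiable at `z0`.
-/

set_option autoImplicit false

open Filter Topology Polynomial Metric Set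

namespace Pool.Agent.H44.RG

open Pool.Agent.H44.Fatou Pool.Agent.H32.BT

theorem br_hol {P Q : Polynomial ℂ} (hcop : IsCoprime P Q)
    (hd : 1 ≤ max P.natDegree Q.natDegree) {s : ℂ} {φ : OnePoint ℂ ≃ₜ OnePoint ℂ}
    (hφs : φ s = OnePoint.infty)
    (hφ : ∀ z : ℂ, z ≠ s → φ (z : OnePoint ℂ) = (((z - s)⁻¹ : ℂ) : OnePoint ℂ))
    (hφi : φ OnePoint.infty = ((0 : ℂ) : OnePoint ℂ)) {q : ℂ} {δ : ℝ} {k : ℕ}
    {H : ℂ → OnePoint ℂ} (hH : ContinuousOn H (ball q δ)) (hi : InjOn H (ball q δ))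
    (hs : ∀ z ∈ ball q δ, H z ≠ (s : OnePoint ℂ))
    (hk : ∀ z ∈ ball q δ, (rat P Q)^[k] (H z) = (z : OnePoint ℂ))
    (hloc : ∀ z ∈ ball q δ, ∃ W ∈ 𝓝 (H z), InjOn (rat P Q)^[k] W) :
    ∃ m : ℂ → ℂ, DifferentiableOn ℂ m (ball q δ) ∧ InjOn m (ball q δ) ∧
      ∀ z ∈ ball q δ, φ (H z) = (m z : OnePoint ℂ) := by
  classical
  obtain ⟨e, he⟩ : ∃ e, e = max P.natDegree Q.natDegree := ⟨_, rfl⟩
  obtain ⟨φ', h1, h2, h3, h4⟩ := exists_mob s
  have hφφ : ∀ x, φ x = φ' x := by
    intro x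
    induction x using OnePoint.rec with
    | infty => rw [hφi, h3]
    | coe z =>
      by_cases hz : z = s
      · rw [hz, hφs, h2]
      · rw [hφ z hz, h1 z hz]
  obtain ⟨hc0, hd0, hconj'⟩ := h4 e P Q hcop he.symm (by rw [he]; exact hd)
  have hconj : ∀ x, rat (cj1 s e P Q) (cj2 s e P Q) (φ x) = φ (rat P Q x) := by
    intro x
    rw [hφφ, hφφ, hconj']
  obtain ⟨A, B, hAB, -, hrat⟩ := Pool.Agent.H79.PJ.rat_iter hc0
    (show 1 ≤ dg (cj1 s e P Q) (cj2 s e P Q) by
      unfold dg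
      rw [hd0, he]
      exact hd) k
  have hck : ∀ x, rat A B (φ x) = φ ((rat P Q)^[k] x) := by
    intro x
    rw [hrat, iter_conj φ hconj]
  -- the chart
  have hex : ∀ z, ∃ w : ℂ, z ∈ ball q δ → φ (H z) = (w : OnePoint ℂ) := by
    intro z
    by_cases hz : z ∈ ball q δ
    · have hne : φ (H z) ≠ OnePoint.infty := by
        rw [← hφs]
        exact fun h => hs z hz (φ.injective h)
      obtain ⟨w, hw⟩ := OnePoint.ne_infty_iff_exists.1 hne
      exact ⟨w, fun _ => hw.symm⟩
    · exact ⟨0, fun h => absurd h hz⟩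
  choose m hm using hex
  have hmi : InjOn m (ball q δ) := by
    intro z hz z' hz' h
    apply hi hz hz'
    apply φ.injective
    rw [hm z hz, hm z' hz', h]
  have hmc : ContinuousOn m (ball q δ) := by
    have h5 : ContinuousOn (fun z => ((m z : ℂ) : OnePoint ℂ)) (ball q δ) := by
      refine ContinuousOn.congr (φ.continuous.comp_continuousOn hH) ?_
      intro z hz
      exact (hm z hz).symm
    exact (OnePoint.isOpenEmbedding_coe (X := ℂ)).isInducing.continuousOn_iff.2 h5
  refine ⟨m, ?_, hmi, fun z hz => hm z hz⟩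
  intro z0 hz0
  have hbn : ball q δ ∈ 𝓝 z0 := isOpen_ball.mem_nhds hz0
  have hmc0 : ContinuousAt m z0 := hmc.continuousAt hbn
  have hu0 : rat A B (m z0 : OnePoint ℂ) = φ (z0 : OnePoint ℂ) := by
    rw [← hm z0 hz0, hck, hk z0 hz0]
  have hA0 : A.eval (m z0) ≠ 0 := by
    intro h0
    have hB0 : B.eval (m z0) ≠ 0 := by
      rcases coprime_eval hAB (m z0) with h5 | h5
      · exact absurd h0 h5
      · exact h5
    rw [rat_coe] at hu0
    unfold pt at hu0
    rw [if_neg hB0, h0, zero_div, ← hφi] at hu0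
    exact OnePoint.infty_ne_coe z0 (φ.injective hu0)
  obtain ⟨G, hG⟩ : ∃ G : ℂ → ℂ, ∀ u, G u = s + B.eval u / A.eval u := ⟨fun u => _, fun u => rfl⟩
  have hφG : ∀ u, A.eval u ≠ 0 → φ (G u : OnePoint ℂ) = rat A B (u : OnePoint ℂ) := by
    intro u hu
    rw [rat_coe]
    unfold pt
    by_cases hB : B.eval u = 0
    · rw [if_pos hB, hG, hB, zero_div, add_zero, hφs]
    · have h5 : G u ≠ s := by
        rw [hG]
        intro h6
        exact div_ne_zero hB hu (by linear_combination h6)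
      rw [if_neg hB, hφ _ h5, hG, add_sub_cancel_left, inv_div]
  have hAc : Continuous fun u => A.eval u := A.continuous
  have hev : ∀ᶠ u in 𝓝 (m z0), A.eval u ≠ 0 := hAc.continuousAt.eventually_ne hA0
  have hGm : ∀ᶠ z in 𝓝 z0, G (m z) = z := by
    filter_upwards [hbn, hmc0.eventually hev] with z hz hz2
    have h5 := hφG (m z) hz2
    rw [← hm z hz, hck, hk z hz] at h5
    exact OnePoint.coe_injective (φ.injective h5)
  obtain ⟨W, hW, hWi⟩ := hloc z0 hz0
  have hsym : ∀ᶠ u : ℂ in 𝓝 (m z0), φ.symm (u : OnePoint ℂ) ∈ W := by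
    have h5 : ContinuousAt (fun u : ℂ => φ.symm (u : OnePoint ℂ)) (m z0) :=
      (φ.symm.continuous.comp OnePoint.continuous_coe).continuousAt
    have h6 : φ.symm ((m z0 : ℂ) : OnePoint ℂ) = H z0 := by
      rw [← hm z0 hz0, φ.symm_apply_apply]
    apply h5.eventually
    show ∀ᶠ y in 𝓝 (φ.symm ((m z0 : ℂ) : OnePoint ℂ)), y ∈ W
    rw [h6]
    exact hW
  obtain ⟨r, hr, hball⟩ := Metric.eventually_nhds_iff_ball.1 (hev.and hsym)
  have hGd : DifferentiableOn ℂ G (ball (m z0) r) := by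
    have h5 : G = fun u => s + B.eval u / A.eval u := funext hG
    rw [h5]
    exact (differentiableOn_const s).add (B.differentiable.differentiableOn.div
      A.differentiable.differentiableOn fun u hu => (hball u hu).1)
  have hGi : InjOn G (ball (m z0) r) := by
    intro u hu u' hu' h
    have h5 : (rat P Q)^[k] (φ.symm (u : OnePoint ℂ)) = (rat P Q)^[k] (φ.symm (u' : OnePoint ℂ)) := by
      apply φ.injective
      rw [← hck, ← hck, φ.apply_symm_apply, φ.apply_symm_apply, ← hφG u (hball u hu).1,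
        ← hφG u' (hball u' hu').1, h]
    have h6 := hWi (hball u hu).2 (hball u' hu').2 h5
    exact OnePoint.coe_injective (φ.symm.injective h6)
  have hd1 : 0 < ‖deriv G (m z0)‖ := Pool.Agent.H80.AJ.deriv_ne hr hGd hGi
    (mem_closedBall_self (by positivity))
  have hGder : HasDerivAt G (deriv G (m z0)) (m z0) :=
    (hGd.differentiableAt (isOpen_ball.mem_nhds (mem_ball_self hr))).hasDerivAt
  exact (HasDerivAt.of_local_left_inverse hmc0 hGder (norm_pos_iff.1 hd1)
    hGm).differentiableAt.differentiableWithinAt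

end Pool.Agent.H44.RG
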