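import Pool.Agent.H44.RG.PlD

/-!
# Module PLT: the inverse branches at a conical time, on the sphere

PROOF. `f = rat P Q` is continuous (`rat_continuous`) and open (H32/BT/Crit), so is `f^[n]`. Let `g = Function.invFunOn f^[n] U` and `H j z = f^[j] (g z)`. `g` maps `ball q δ` (coerced; `chord q z ≤ ‖q - z‖ < δ`: `chord` of two finite points is
`‖q - z‖ / (√(1 + ‖q‖ ^ 2) * √(1 + ‖z‖ ^ 2))` and the square roots are at least `1`) into `U`, `f^[n] (g z) = z`; it is continuous there: for an open `O`, the set of the `z` with `g z ∈ O` is the preimage of the open set `f^[n] '' (O ∩ U)` (injectivity on `U`). `g q = x`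
(injectivity). `H n z = f^[n] (g z) = z`. `H j` is injective on the ball (`f^[n - j] (H j z) = z`). `¬ IsCrit`: `f^[j] '' U` is an open neighbourhood of `H j z` on which `f` is injective (`j < n`): if `f (f^[j] u) = f (f^[j] u')`, apply `f^[n - j - 1]`: `f^[n] u = f^[n] u'`, so `u = u'`.
-/

set_option autoImplicit false

open Filter Topology Polynomial Metric Set

namespace Pool.Agent.H44.RG

open Pool.Agent.H44.Fatou Pool.Agent.H32.BT Pool.Agent.H35.EX

private theorem plt_chord (q z : ℂ) : chord (q : OnePoint ℂ) (z : OnePoint ℂ) ≤ ‖q - z‖ := by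
  show ‖q - z‖ / (√(1 + ‖q‖ ^ 2) * √(1 + ‖z‖ ^ 2)) ≤ ‖q - z‖
  apply div_le_self (norm_nonneg _)
  have h1 : 1 ≤ √(1 + ‖q‖ ^ 2) := by
    rw [Real.one_le_sqrt]
    nlinarith [sq_nonneg ‖q‖]
  have h2 : 1 ≤ √(1 + ‖z‖ ^ 2) := by
    rw [Real.one_le_sqrt]
    nlinarith [sq_nonneg ‖z‖]
  nlinarith

private theorem plt_open {f : OnePoint ℂ → OnePoint ℂ} (hf : IsOpenMap f) (n : ℕ) :
    IsOpenMap f^[n] := by
  induction n with
  | zero => exact IsOpenMap.id
  | succ n ih =>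
    rw [Function.iterate_succ]
    exact ih.comp hf

theorem br_top {P Q : Polynomial ℂ} (hcop : IsCoprime P Q) (hd : 1 ≤ dg P Q) {x : OnePoint ℂ}
    {n : ℕ} {U : Set (OnePoint ℂ)} (hU : IsOpen U) (hx : x ∈ U) {q : ℂ}
    (hq : (rat P Q)^[n] x = (q : OnePoint ℂ)) {δ : ℝ} (hδ : 0 < δ)
    (hB : BijOn (rat P Q)^[n] U {y | chord (q : OnePoint ℂ) y < δ}) :
    ∃ H : ℕ → ℂ → OnePoint ℂ, (∀ z ∈ ball q δ, H n z = (z : OnePoint ℂ)) ∧
      (∀ j ≤ n, ContinuousOn (H j) (ball q δ) ∧ InjOn (H j) (ball q δ) ∧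
        H j q = (rat P Q)^[j] x) ∧
      ∀ j < n, ∀ z ∈ ball q δ, rat P Q (H j z) = H (j + 1) z ∧ ¬ IsCrit (rat P Q) (H j z) := by
  obtain ⟨f, hf⟩ : ∃ f : OnePoint ℂ → OnePoint ℂ, f = rat P Q := ⟨_, rfl⟩
  rw [← hf] at hB hq ⊢
  have hcont : Continuous f := by
    rw [hf]
    exact rat_continuous hcop
  have hop : IsOpenMap f := by
    rw [hf]
    exact rat_open hcop hd
  obtain ⟨g, hg⟩ : ∃ g : ℂ → OnePoint ℂ, g = fun z : ℂ => Function.invFunOn f^[n] U (z : OnePoint ℂ) :=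
    ⟨_, rfl⟩
  have hV : ∀ z ∈ ball q δ, (z : OnePoint ℂ) ∈ {y | chord (q : OnePoint ℂ) y < δ} := by
    intro z hz
    rw [mem_ball, dist_eq_norm, norm_sub_rev] at hz
    exact (plt_chord q z).trans_lt hz
  have hg1 : ∀ z ∈ ball q δ, g z ∈ U := by
    intro z hz
    rw [hg]
    exact Function.invFunOn_mem (hB.surjOn (hV z hz))
  have hg2 : ∀ z ∈ ball q δ, f^[n] (g z) = (z : OnePoint ℂ) := by
    intro z hz
    rw [hg]
    exact Function.invFunOn_eq (hB.surjOn (hV z hz))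
  have hgc : ContinuousOn g (ball q δ) := by
    intro z0 hz0
    rw [ContinuousWithinAt, tendsto_def]
    intro O hO
    obtain ⟨O', hO'O, hO', hzO⟩ := mem_nhds_iff.1 hO
    have h1 : IsOpen (f^[n] '' (O' ∩ U)) := plt_open hop n _ (hO'.inter hU)
    have h2 : (z0 : OnePoint ℂ) ∈ f^[n] '' (O' ∩ U) := ⟨g z0, ⟨hzO, hg1 z0 hz0⟩, hg2 z0 hz0⟩
    have h3 : {z : ℂ | (z : OnePoint ℂ) ∈ f^[n] '' (O' ∩ U)} ∈ 𝓝 z0 :=
      (h1.preimage OnePoint.continuous_coe).mem_nhds h2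
    rw [mem_nhdsWithin_iff_exists_mem_nhds_inter]
    refine ⟨_, h3, ?_⟩
    rintro z ⟨⟨u, ⟨hu1, hu2⟩, hu3⟩, hzb⟩
    have h4 : g z = u := by
      apply hB.injOn (hg1 z hzb) hu2
      rw [hg2 z hzb]
      exact hu3.symm
    show g z ∈ O
    rw [h4]
    exact hO'O hu1
  have hqb : q ∈ ball q δ := mem_ball_self hδ
  have hgq : g q = x := by
    apply hB.injOn (hg1 q hqb) hx
    rw [hg2 q hqb, hq]
  refine ⟨fun j z => f^[j] (g z), fun z hz => hg2 z hz, ?_, ?_⟩
  · intro j hj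
    refine ⟨(hcont.iterate j).comp_continuousOn hgc, ?_, ?_⟩
    · intro z hz z' hz' h
      have h1 : f^[n - j] (f^[j] (g z)) = f^[n - j] (f^[j] (g z')) := congrArg _ h
      rw [← Function.iterate_add_apply, ← Function.iterate_add_apply, Nat.sub_add_cancel hj,
        hg2 z hz, hg2 z' hz'] at h1
      exact OnePoint.coe_injective h1
    · show f^[j] (g q) = f^[j] x
      rw [hgq]
  · intro j hj z hz
    refine ⟨(Function.iterate_succ_apply' f j (g z)).symm, ?_⟩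
    intro hc
    apply hc
    refine ⟨f^[j] '' U, (plt_open hop j U hU).mem_nhds ⟨g z, hg1 z hz, rfl⟩, ?_⟩
    rintro _ ⟨u, hu, rfl⟩ _ ⟨u', hu', rfl⟩ h
    have h1 : f^[n - j - 1] (f (f^[j] u)) = f^[n - j - 1] (f (f^[j] u')) := congrArg _ h
    rw [← Function.iterate_succ_apply' f j u, ← Function.iterate_succ_apply' f j u',
      ← Function.iterate_add_apply, ← Function.iterate_add_apply,
      show n - j - 1 + j.succ = n by omega] at h1
    rw [hB.injOn hu hu' h1]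

end Pool.Agent.H44.RG
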