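import Pool.Agent.H44.RG.PLA
import Pool.Agent.H44.RG.PLT
import Pool.Agent.H44.RG.PLH
import Pool.Agent.H44.RG.PLC
import Pool.Agent.H44.RG.PLE

/-!
# Module PLX: the plane data exist
-/

set_option autoImplicit false

open Filter Topology Polynomial Metric Set

namespace Pool.Agent.H44.RG

open Pool.Agent.H44.Fatou Pool.Agent.H32.BT Pool.Agent.H79.Eul Pool.Agent.H79.Par
open Pool.Agent.H35.EX Pool.Agent.H44.RR Pool.Agent.H61.TT

/-- compositions of locally injective maps are locally injective -/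
theorem loc_inj {f : OnePoint ℂ → OnePoint ℂ} (hf : Continuous f) {H : ℕ → OnePoint ℂ} {n : ℕ}
    (hH : ∀ j < n, f (H j) = H (j + 1) ∧ ¬ IsCrit f (H j)) :
    ∀ i j, i + j = n → ∃ W ∈ 𝓝 (H j), InjOn f^[i] W := by
  intro i
  induction i with
  | zero =>
    intro j _
    exact ⟨univ, univ_mem, fun x _ y _ h => h⟩
  | succ i ih =>
    intro j hj
    obtain ⟨h1, h2⟩ := hH j (by omega)
    obtain ⟨W, hW, hWi⟩ := ih (j + 1) (by omega)
    unfold IsCrit at h2
    rw [not_not] at h2
    obtain ⟨W', hW', hWi'⟩ := h2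
    refine ⟨W' ∩ f ⁻¹' W, inter_mem hW' (hf.continuousAt.preimage_mem_nhds (by
      rw [h1]
      exact hW)), ?_⟩
    rintro x ⟨hx1, hx2⟩ y ⟨hy1, hy2⟩ hxy
    rw [Function.iterate_succ_apply, Function.iterate_succ_apply] at hxy
    exact hWi' hx1 hy1 (hWi hx2 hy2 hxy)

theorem it_H {f : OnePoint ℂ → OnePoint ℂ} {H : ℕ → OnePoint ℂ} {n : ℕ}
    (hH : ∀ j < n, f (H j) = H (j + 1)) : ∀ i j, i + j = n → f^[i] (H j) = H n := by
  intro i
  induction i with
  | zero =>
    intro j hj
    rw [Function.iterate_zero, id, show j = n by omega]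
  | succ i ih =>
    intro j hj
    rw [Function.iterate_succ_apply, hH j (by omega)]
    exact ih (j + 1) (by omega)

theorem pl_ex {d : ℕ} (hd : 2 ≤ d) {v0 : E d} (h0 : Chart1 v0) {c : ℂ} (hc : wv v0 c = 0)
    (hS : Summ (Rf v0) (Rf v0 (c : OnePoint ℂ))) (hC : Con (Rf v0) (Rf v0 (c : OnePoint ℂ)))
    (hinf : OnePoint.infty ∉ closure (Set.range fun k : ℕ => (Rf v0)^[k] (c : OnePoint ℂ))) :
    ∃ ε1 : ℝ, 0 < ε1 ∧ ∀ ε0 : ℝ, 0 < ε0 → ε0 ≤ ε1 →
      ∃ (δ : ℝ) (S : Set ℕ), Pl v0 (fun k => it v0 k c) ε0 δ S := by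
  have hd1 : 1 ≤ max (pol v0.1).natDegree (pol v0.2).natDegree := by rw [h0.deg]; omega
  have hcrit : ∀ z : ℂ, wv v0 z = 0 → IsCrit (Rf v0) (z : OnePoint ℂ) := by
    intro z hz
    apply crit_of_wr h0.cop hd1
    rw [← wv_cf (pol_deg _) (pol_deg _), cf_pol, cf_pol]
    exact hz
  have hcr := hcrit c hc
  have hfin := h0.fin _ hcr
  obtain ⟨ho, hx⟩ := orb_all hfin
  obtain ⟨c', hcc, hc'⟩ := two_crit hd h0 hc
  have hcr' := hcrit c' hc'
  obtain ⟨φ, hφ1, hφs, hφi, -⟩ := exists_mob c'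
  obtain ⟨R, hR⟩ := pl_bdd hfin hinf
  obtain ⟨ε1, β, hε1, hβ, hden⟩ := pl_den h0.cop hfin hinf
  obtain ⟨htr, hsm⟩ := pl_sum hfin hS
  refine ⟨ε1, hε1, fun ε0 hε0 hε01 => ?_⟩
  obtain ⟨κ, hκ, hκ1, hkoe⟩ := koe_inv c' ((c - c')⁻¹) R hε0
  obtain ⟨δ', hδ', hfr⟩ := hC
  refine ⟨min (κ * δ') ε0, {n : ℕ | ∃ U : Set (OnePoint ℂ), IsOpen U ∧
    Rf v0 (c : OnePoint ℂ) ∈ U ∧ BijOn (Rf v0)^[n] U
      {y | chord ((Rf v0)^[n] (Rf v0 (c : OnePoint ℂ))) y < δ'}},
    h0.cop, h0.deg, ho, hc, ⟨R, hR⟩,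
    ⟨β, hβ, fun k z hz => hden k z (ball_subset_ball hε01 hz)⟩, htr, hsm, ?_, hε0,
    lt_min (mul_pos hκ hδ') hε0, Nat.frequently_atTop_iff_infinite.1 hfr, ?_⟩
  · intro k
    apply fib_deg h0.cop h0.deg
    have h1 := h0.pinf _ hcr (k + 1)
    rw [hx (k + 1)] at h1
    exact h1
  · rintro n ⟨U, hU, hxU, hB⟩
    have hqn : (Rf v0)^[n] (Rf v0 (c : OnePoint ℂ)) = ((it v0 (n + 1) c : ℂ) : OnePoint ℂ) := by
      rw [← Function.iterate_succ_apply, hx (n + 1)]
    rw [hqn] at hB
    obtain ⟨H, hHn, hHj, hHr⟩ := br_top h0.cop hd1 hU hxU hqn hδ' hB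
    obtain ⟨q, hq⟩ : ∃ q : ℂ, q = it v0 (n + 1) c := ⟨_, rfl⟩
    rw [← hq] at hHn hHj hHr
    have hcont : Continuous (Rf v0) := rat_continuous h0.cop
    have hqb : q ∈ ball q δ' := mem_ball_self hδ'
    have hHq : ∀ j ≤ n, H j q = ((it v0 (j + 1) c : ℂ) : OnePoint ℂ) := by
      intro j hj
      rw [(hHj j hj).2.2, ← hx (j + 1), Function.iterate_succ_apply]
      rfl
    -- the holomorphic branches in the chart at `c'`
    have hm : ∀ j : ℕ, ∃ m : ℂ → ℂ, j < n → DifferentiableOn ℂ m (ball q δ') ∧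
        InjOn m (ball q δ') ∧ ∀ z ∈ ball q δ', φ (H j z) = (m z : OnePoint ℂ) := by
      intro j
      by_cases hj : j < n
      · obtain ⟨m, h1, h2, h3⟩ := br_hol h0.cop hd1 hφs hφ1 hφi (k := n - j) (hHj j hj.le).1
          (hHj j hj.le).2.1 (by
            intro z hz h4
            apply (hHr j hj z hz).2
            rw [h4]
            exact hcr') (by
            intro z hz
            have h5 := it_H (f := rat (pol v0.1) (pol v0.2)) (H := fun i => H i z) (n := n)
              (fun i hi => (hHr i hi z hz).1) (n - j) j (by omega)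
            rw [← hHn z hz]
            exact h5) (by
            intro z hz
            exact loc_inj (f := rat (pol v0.1) (pol v0.2)) hcont (H := fun i => H i z) (n := n)
              (fun i hi => hHr i hi z hz) (n - j) j (by omega))
        exact ⟨m, fun _ => ⟨h1, h2, h3⟩⟩
      · exact ⟨fun z => z, fun h => absurd h hj⟩
    choose m hm using hm
    have hne : ∀ j < n, ∀ z ∈ ball q δ', m j z ≠ (c - c')⁻¹ := by
      intro j hj z hz h4
      apply (hHr j hj z hz).2
      have h5 : φ (H j z) = φ (c : OnePoint ℂ) := by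
        rw [(hm j hj).2.2 z hz, h4, hφ1 c hcc.symm]
      rw [φ.injective h5]
      exact hcr
    have hmq : ∀ j < n, m j q ≠ 0 ∧ c' + (m j q)⁻¹ = it v0 (j + 1) c := by
      intro j hj
      have h5 := (hm j hj).2.2 q hqb
      rw [hHq j hj.le] at h5
      have h6 : it v0 (j + 1) c ≠ c' := by
        intro h7
        rw [h7, hφs] at h5
        exact OnePoint.infty_ne_coe _ h5
      rw [hφ1 _ h6] at h5
      have h7 := OnePoint.coe_eq_coe.1 h5
      rw [← h7]
      refine ⟨inv_ne_zero (sub_ne_zero.2 h6), ?_⟩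
      rw [inv_inv]
      ring
    have hest : ∀ j < n, ∀ z ∈ ball q (κ * δ'), m j z ≠ 0 ∧
        ‖(c' + (m j z)⁻¹) - it v0 (j + 1) c‖ < ε0 := by
      intro j hj z hz
      have h5 := hkoe (m j) q δ' hδ' (hm j hj).1 (hm j hj).2.1 (hne j hj) (hmq j hj).1
        (by rw [(hmq j hj).2]; exact hR _) z hz
      rw [(hmq j hj).2] at h5
      exact h5
    have hsub : ball q (min (κ * δ') ε0) ⊆ ball q (κ * δ') := ball_subset_ball (min_le_left _ _)
    have hκδ : ball q (κ * δ') ⊆ ball q δ' := ball_subset_ball (by nlinarith)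
    have hcoe : ∀ j < n, ∀ z ∈ ball q (κ * δ'), H j z = ((c' + (m j z)⁻¹ : ℂ) : OnePoint ℂ) := by
      intro j hj z hz
      apply φ.injective
      rw [(hm j hj).2.2 z (hκδ hz), hφ1]
      · congr 1
        rw [add_sub_cancel_left, inv_inv]
      · intro h6
        apply inv_ne_zero (hest j hj z hz).1
        calc (m j z)⁻¹ = c' + (m j z)⁻¹ - c' := by ring
          _ = 0 := by rw [h6, sub_self]
    show ∃ h : ℕ → ℂ → ℂ, (∀ z ∈ ball (it v0 (n + 1) c) (min (κ * δ') ε0), h n z = z) ∧ _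
    rw [← hq]
    refine ⟨fun j z => if j < n then c' + (m j z)⁻¹ else z, ?_, ?_, ?_⟩
    · intro z _
      show (if n < n then _ else z) = z
      rw [if_neg (lt_irrefl n)]
    · intro j hj
      rcases hj.lt_or_eq with hj | rfl
      · refine ⟨?_, ?_, ?_⟩
        · show (if j < n then c' + (m j q)⁻¹ else q) = it v0 (j + 1) c
          rw [if_pos hj, (hmq j hj).2]
        · have h8 : DifferentiableOn ℂ (fun z => c' + (m j z)⁻¹) (ball q (min (κ * δ') ε0)) := by
            intro z hz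
            have h9 := ((hm j hj).1.mono (hsub.trans hκδ)) z hz
            exact (h9.inv (hest j hj z (hsub hz)).1).const_add c'
          refine h8.congr fun z _ => ?_
          show (if j < n then c' + (m j z)⁻¹ else z) = _
          rw [if_pos hj]
        · intro z hz
          show (if j < n then c' + (m j z)⁻¹ else z) ∈ ball (it v0 (j + 1) c) ε0
          rw [if_pos hj, mem_ball_iff_norm]
          exact (hest j hj z (hsub hz)).2
      · refine ⟨?_, ?_, ?_⟩
        · show (if j < j then _ else q) = it v0 (j + 1) c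
          rw [if_neg (lt_irrefl j), hq]
        · refine differentiableOn_id.congr fun z _ => ?_
          show (if j < j then _ else z) = _
          rw [if_neg (lt_irrefl j)]
          rfl
        · intro z hz
          show (if j < j then _ else z) ∈ ball (it v0 (j + 1) c) ε0
          rw [if_neg (lt_irrefl j), ← hq]
          exact ball_subset_ball (min_le_right _ _) hz
    · intro j hj z hz
      have hz' := hsub hz
      show gg (pol v0.1) (pol v0.2) (if j < n then c' + (m j z)⁻¹ else z) =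
        if j + 1 < n then c' + (m (j + 1) z)⁻¹ else z
      rw [if_pos hj]
      have h1 := (hHr j hj z (hκδ hz')).1
      rw [hcoe j hj z hz'] at h1
      have h2 : (pol v0.2).eval (c' + (m j z)⁻¹) ≠ 0 := by
        have h3 := hden (j + 1) (c' + (m j z)⁻¹) (by
          rw [mem_ball_iff_norm]
          exact (hest j hj z hz').2.trans_le hε01)
        rw [ev_pol] at h3
        intro h4
        rw [h4, norm_zero] at h3
        linarith
      have h3 : H (j + 1) z = ((if j + 1 < n then c' + (m (j + 1) z)⁻¹ else z : ℂ) :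
          OnePoint ℂ) := by
        by_cases hj1 : j + 1 < n
        · rw [if_pos hj1, hcoe (j + 1) hj1 z hz']
        · rw [if_neg hj1, show j + 1 = n by omega, hHn z (hκδ hz')]
      have h4 := rat_coe_of_ne (P := pol v0.1) h2
      have h5 : (((pol v0.1).eval (c' + (m j z)⁻¹) / (pol v0.2).eval (c' + (m j z)⁻¹) : ℂ) :
          OnePoint ℂ) = H (j + 1) z := by
        rw [← h1]
        exact h4.symm
      rw [h3] at h5
      exact OnePoint.coe_eq_coe.1 h5

end Pool.Agent.H44.RG
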