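import Pool.Agent.H44.RR.CHV

/-!
# Module CHH: change of charts for holes

PROOF (compare `chart_volS`, H44/RR/CHV). `L = Lin s` is a real linear isomorphism of `E d` (`lin_add`, `lin_smul`, `lin_inj`, finite dimension), with continuous inverse `L⁻¹`; let `M > 0` with `‖L⁻¹ w‖ < M` for all `w ∈ ball 0 1`
(for instance `M = ‖L⁻¹‖ + 1`). For `r, H` of the hypothesis take `r' = M r` and `H' = {w' | M • L w' ∈ H}`: measurable (continuous preimage), `H' ⊆ ball 0 1` (`w' = M⁻¹ • L⁻¹ w`), `volume H' = K * volume H` with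
`K = |det (M L)|⁻¹ > 0` (`Measure.addHaar_preimage_linearMap`), `c0' = K * c0`. For `w' ∈ H'`, `w = M • L w' ∈ H`: `Lin s (pv v0 (w', r')) = pv (Lin s v0) (Lin s w', M r) = pv (Lin s v0) (w, r)` (`lin_pv`), so `pv v0 (w', r') ∉ A`.
`∃ᶠ r'`: the map `r ↦ M r` preserves `𝓝[>] 0`.
-/

set_option autoImplicit false

open Filter Topology Polynomial Metric Set MeasureTheory

namespace Pool.Agent.H44.RG

open Pool.Agent.H44.Fatou Pool.Agent.H32.BT Pool.Agent.H79.Eul Pool.Agent.H79.Par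

theorem chart_holes (s : ℂ) {d : ℕ} {v0 : E d} {A : Set (E d)} {c0 : ENNReal} (hc0 : 0 < c0)
    (h : ∃ᶠ r in 𝓝[>] (0 : ℝ), ∃ H : Set (E d), MeasurableSet H ∧ H ⊆ ball (0 : E d) 1 ∧
      c0 ≤ volume H ∧ ∀ w ∈ H, ∀ v : E d, Lin s v = pv (Lin s v0) (w, r) → v ∉ A) :
    ∃ c1 : ENNReal, 0 < c1 ∧ ∃ᶠ r in 𝓝[>] (0 : ℝ), ∃ H : Set (E d),
      MeasurableSet H ∧ H ⊆ ball (0 : E d) 1 ∧ c1 ≤ volume H ∧ ∀ w ∈ H, pv v0 (w, r) ∉ A := by
  have hhaar := volume_haar d
  let g : E d →ₗ[ℂ] E d :=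
    { toFun := Lin s
      map_add' := lin_add s
      map_smul' := fun c v => by rw [lin_smul, RingHom.id_apply] }
  let f : E d →ₗ[ℝ] E d := g.restrictScalars ℝ
  have hf : ∀ v, f v = Lin s v := fun v => rfl
  have hinj : Function.Injective f := lin_inj s
  let e : E d ≃ₗ[ℝ] E d := LinearEquiv.ofInjectiveEndo f hinj
  have he : ∀ v, e v = Lin s v := fun v => rfl
  let G : E d →L[ℝ] E d := LinearMap.toContinuousLinearMap (e.symm : E d →ₗ[ℝ] E d)
  have hG : ∀ v, G v = e.symm v := fun v => rfl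
  set M : ℝ := ‖G‖ + 1 with hM
  have hM0 : 0 < M := by positivity
  let L : E d →ₗ[ℝ] E d := M • f
  have hL : ∀ v, L v = M • Lin s v := fun v => rfl
  have hLinj : Function.Injective L := by
    intro v w hvw
    rw [hL, hL] at hvw
    exact hinj (smul_right_injective (E d) hM0.ne' hvw)
  have hdet : LinearMap.det L ≠ 0 := by
    intro h
    have h1 := LinearMap.bot_lt_ker_of_det_eq_zero h
    have h2 : LinearMap.ker L = ⊥ := LinearMap.ker_eq_bot.2 hLinj
    rw [h2] at h1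
    exact lt_irrefl _ h1
  have hLc : Continuous L := LinearMap.continuous_of_finiteDimensional L
  refine ⟨ENNReal.ofReal |(LinearMap.det L)⁻¹| * c0, ?_, ?_⟩
  · refine ENNReal.mul_pos ?_ hc0.ne'
    rw [Ne, ENNReal.ofReal_eq_zero, not_le]
    exact abs_pos.2 (inv_ne_zero hdet)
  · have hlim : Tendsto (fun r : ℝ => M * r) (𝓝[>] 0) (𝓝[>] 0) := by
      rw [tendsto_nhdsWithin_iff]
      constructor
      · have h1 : Tendsto (fun r : ℝ => M * r) (𝓝 0) (𝓝 (M * 0)) :=
          tendsto_id.const_mul M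
        rw [mul_zero] at h1
        exact h1.mono_left nhdsWithin_le_nhds
      · filter_upwards [self_mem_nhdsWithin] with r hr
        exact mul_pos hM0 hr
    refine hlim.frequently (h.mono fun r hr => ?_)
    obtain ⟨H, hHm, hHb, hHv, hHA⟩ := hr
    refine ⟨L ⁻¹' H, hLc.measurable hHm, ?_, ?_, ?_⟩
    · intro w hw
      have h1 : L w ∈ ball (0 : E d) 1 := hHb hw
      rw [mem_ball_zero_iff] at h1 ⊢
      have h2 : G (L w) = M • w := by
        rw [hL, map_smul, hG, ← he, LinearEquiv.symm_apply_apply]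
      have h3 : M * ‖w‖ ≤ ‖G‖ := by
        calc M * ‖w‖ = ‖M • w‖ := by rw [norm_smul, Real.norm_of_nonneg hM0.le]
          _ = ‖G (L w)‖ := by rw [h2]
          _ ≤ ‖G‖ * ‖L w‖ := G.le_opNorm _
          _ ≤ ‖G‖ * 1 := by gcongr
          _ = ‖G‖ := mul_one _
      have h4 : M * ‖w‖ < M * 1 := by
        rw [mul_one]
        linarith
      exact lt_of_mul_lt_mul_left h4 hM0.le
    · rw [Measure.addHaar_preimage_linearMap _ hdet]
      gcongr
    · intro w hw
      refine hHA (L w) hw _ ?_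
      rw [lin_pv]
      unfold pv
      simp only
      rw [hL, smul_smul, mul_comm]

end Pool.Agent.H44.RG
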