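import Pool.Agent.H44.RR.NUD

/-!
# Module NHO: a set with holes of a definite proportion at arbitrarily small scales at each of its points is null

PROOF. As `null_of_dens` (H44/RR/NUD): `IsUnifLocDoublingMeasure.ae_tendsto_measure_inter_div` for the arbitrary set `S`: at almost every point `v` of `S` (for the outer measure) the ratio
`volume (S ∩ closedBall v r) / volume (closedBall v r)` tends to `1` along `𝓝[>] 0` (apply it with the filter `𝓝[>] 0`, `w = fun _ => v`, `δ = id`). But for the `r` of the hypothesis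
`S ∩ closedBall v r` is contained in `closedBall v r` minus the measurable set `{v + r w | w ∈ H}`, whose measure is `r ^ n` times the one of `H` (`n = finrank ℝ (E d)`; `Measure.addHaar_smul`, translation
invariance), so the ratio is at most `1 - c0 / volume (ball 0 1)` (see `scaling` in H79/Eul/Scaling: or apply `scaling` to the ball and the complement of `S`).
-/

set_option autoImplicit false

open Filter Topology Polynomial Metric Set MeasureTheory

namespace Pool.Agent.H44.RG

open Pool.Agent.H44.Fatou Pool.Agent.H32.BT Pool.Agent.H79.Eul Pool.Agent.H79.Par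

theorem null_of_holes {d : ℕ} {S : Set (E d)}
    (h : ∀ v ∈ S, ∃ c0 : ENNReal, 0 < c0 ∧ ∃ᶠ r in 𝓝[>] (0 : ℝ), ∃ H : Set (E d),
      MeasurableSet H ∧ H ⊆ ball (0 : E d) 1 ∧ c0 ≤ volume H ∧ ∀ w ∈ H, pv v (w, r) ∉ S) :
    volume S = 0 := by
  have hae := IsUnifLocDoublingMeasure.ae_tendsto_measure_inter_div (volume : Measure (E d)) S 1
  rw [ae_iff] at hae
  refine measure_mono_null (t := {a | ¬ _} ∩ S) ?_ (le_antisymm
    ((Measure.le_restrict_apply S _).trans hae.le) zero_le)
  intro v hv
  refine ⟨fun hP => ?_, hv⟩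
  have h1 := hP (fun _ => v) (fun r : ℝ => r) (tendsto_id : Tendsto id (𝓝[>] (0 : ℝ)) (𝓝[>] 0))
    (by
      filter_upwards [self_mem_nhdsWithin] with r hr
      have hr0 : (0 : ℝ) < r := hr
      refine mem_closedBall_self ?_
      rw [one_mul]
      exact hr0.le)
  have hb : volume (ball (0 : E d) 1) ≠ 0 := (measure_ball_pos _ _ one_pos).ne'
  have hbt : volume (ball (0 : E d) 1) ≠ ⊤ := measure_ball_lt_top.ne
  obtain ⟨c0, hc0, hfr⟩ := h v hv
  have hlt : (volume (ball (0 : E d) 1) - c0) / volume (ball (0 : E d) 1) < 1 := by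
    refine ENNReal.div_lt_of_lt_mul ?_
    rw [one_mul]
    exact ENNReal.sub_lt_self hbt hb hc0.ne'
  have hev : ∀ᶠ r in 𝓝[>] (0 : ℝ), (volume (ball (0 : E d) 1) - c0) / volume (ball (0 : E d) 1) <
      volume (S ∩ closedBall v r) / volume (closedBall v r) := h1.eventually_const_lt hlt
  have hev2 : ∀ᶠ r in 𝓝[>] (0 : ℝ), (0 : ℝ) < r := by
    filter_upwards [self_mem_nhdsWithin] with r hr
    exact hr
  obtain ⟨r, ⟨H, hHm, hHb, hHc, hHS⟩, hr1, hr0⟩ := (hfr.and_eventually (hev.and hev2)).exists
  have h4 : volume (S ∩ closedBall v r) / volume (closedBall v r) =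
      volume (ball (0 : E d) 1 ∩ {w | pv v (w, r) ∈ S}) / volume (ball (0 : E d) 1) := by
    haveI := volume_haar (d := d)
    have hsph : volume (sphere v r) = 0 :=
      Measure.addHaar_sphere_of_ne_zero _ _ hr0.ne'
    have e1 : volume (closedBall v r) = volume (ball v r) :=
      Measure.addHaar_closedBall_eq_addHaar_ball _ _ _
    have e2 : volume (S ∩ closedBall v r) = volume (ball v r ∩ S) := by
      apply le_antisymm
      · have e3 : S ∩ closedBall v r ⊆ (ball v r ∩ S) ∪ sphere v r := by
          rintro x ⟨hx1, hx2⟩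
          rw [← ball_union_sphere] at hx2
          rcases hx2 with hx2 | hx2
          · exact Or.inl ⟨hx2, hx1⟩
          · exact Or.inr hx2
        calc volume (S ∩ closedBall v r) ≤ volume ((ball v r ∩ S) ∪ sphere v r) :=
              measure_mono e3
          _ ≤ volume (ball v r ∩ S) + volume (sphere v r) := measure_union_le _ _
          _ = volume (ball v r ∩ S) := by rw [hsph, add_zero]
      · apply measure_mono
        rintro x ⟨hx1, hx2⟩
        exact ⟨hx2, ball_subset_closedBall hx1⟩
    rw [e1, e2, scaling _ _ hr0]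
    rfl
  have h5 : volume (ball (0 : E d) 1 ∩ {w | pv v (w, r) ∈ S}) ≤
      volume (ball (0 : E d) 1) - c0 := by
    have hsub : ball (0 : E d) 1 ∩ {w | pv v (w, r) ∈ S} ⊆ ball (0 : E d) 1 \ H := by
      rintro w ⟨hw1, hw2⟩
      exact ⟨hw1, fun hw => hHS w hw hw2⟩
    refine (measure_mono hsub).trans ?_
    rw [measure_diff hHb hHm.nullMeasurableSet
      (ne_top_of_le_ne_top hbt (measure_mono hHb))]
    exact tsub_le_tsub_left hHc _
  rw [h4] at hr1
  exact absurd (ENNReal.div_le_div_right h5 _) (not_le.2 hr1)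

end Pool.Agent.H44.RG
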