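import Pool.Agent.H44.RR.PDF

/-!
# Module CST: the critical points of nearby maps

PROOF (see the proof of `c_finalP`, H44/RR/PCF). `R` from `no_crit_infty` (as there): for `w` near `v0` there is no critical point at infinity and `wv w z ≠ 0` for `‖z‖ > R`. The set
`closedBall 0 R ∩ coe ⁻¹' F \ ball c ρ1` is compact (`F` closed) and `wv v0 z ≠ 0` on it (`crit_of_wr`: `wv v0 z = 0` makes `z` critical, so `z = c` by `hF`); `ev_compact`: for `w` near `v0` `wv w z ≠ 0` on it. `cop_near`.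
A critical point of `Rf w` is finite, `wv w z = 0` (`crit_coe`, `wv_cf`, `cf_pol`).
-/

set_option autoImplicit false

open Filter Topology Polynomial Metric Set MeasureTheory

namespace Pool.Agent.H44.RG

open Pool.Agent.H44.Fatou Pool.Agent.H32.BT Pool.Agent.H79.Eul Pool.Agent.H79.Par
open Pool.Agent.H44.RR

theorem crit_stay {d : ℕ} (hd : 2 ≤ d) {v0 : E d} (hcop : IsCoprime (pol v0.1) (pol v0.2))
    (hdeg : max (pol v0.1).natDegree (pol v0.2).natDegree = d)
    (hinf : ¬ IsCrit (Rf v0) OnePoint.infty) {c : ℂ} {F : Set (OnePoint ℂ)} (hFc : IsClosed F)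
    (hF : ∀ x, IsCrit (Rf v0) x → x ∈ F → x = (c : OnePoint ℂ)) {ρ1 : ℝ} (hρ : 0 < ρ1) :
    ∀ᶠ w in 𝓝 v0, ∀ x, IsCrit (Rf w) x → x ∈ F →
      ∃ z ∈ ball c ρ1, x = (z : OnePoint ℂ) ∧ wv w z = 0 := by
  have hd1 : 1 ≤ max (pol v0.1).natDegree (pol v0.2).natDegree := by rw [hdeg]; omega
  have h0 : wv (rv v0) 0 ≠ 0 := by
    intro h
    apply hinf
    apply crit_infty_of_wr hcop hd1
    have hdg : dg (pol v0.1) (pol v0.2) = d := hdeg
    rw [hdg, ← wv_cf (natDegree_reflect_le' (pol_deg _)) (natDegree_reflect_le' (pol_deg _)),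
      ← rv_cf, cf_pol, cf_pol]
    exact h
  obtain ⟨R, hR, hev⟩ := no_crit_infty v0 h0
  -- the compact set
  have hcomp : IsCompact ((closedBall (0 : ℂ) R ∩ (fun z : ℂ => (z : OnePoint ℂ)) ⁻¹' F) \
      ball c ρ1) :=
    ((isCompact_closedBall (0 : ℂ) R).inter_right
      (hFc.preimage OnePoint.continuous_coe)).diff isOpen_ball
  have hloc : ∀ z ∈ (closedBall (0 : ℂ) R ∩ (fun z : ℂ => (z : OnePoint ℂ)) ⁻¹' F) \
      ball c ρ1, ∀ᶠ y : E d × ℂ in 𝓝 v0 ×ˢ 𝓝 z, wv y.1 y.2 ≠ 0 := by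
    intro z hz
    have hz0 : wv v0 z ≠ 0 := by
      intro h
      have hcr : IsCrit (Rf v0) (z : OnePoint ℂ) := by
        apply crit_of_wr hcop hd1
        rw [← wv_cf (pol_deg _) (pol_deg _), cf_pol, cf_pol]
        exact h
      apply hz.2
      have h1 := OnePoint.coe_injective (hF _ hcr hz.1.2)
      rw [h1]
      exact mem_ball_self hρ
    rw [← nhds_prod_eq]
    have h1 := (wv_cont (d := d)).tendsto (v0, z)
    exact h1.eventually_ne hz0
  have hall := ev_compact (p := fun (w : E d) z => wv w z ≠ 0) hcomp hloc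
  filter_upwards [(hall.and hev).and (cop_near hcop hdeg (by omega))] with w hw x hc hxF
  obtain ⟨⟨h1, h2⟩, h3⟩ := hw
  induction x using OnePoint.rec with
  | infty =>
    exfalso
    have h4 := crit_infty hc
    have h5 : dg (pol w.1) (pol w.2) = d := h3.2
    rw [h5, ← wv_cf (natDegree_reflect_le' (pol_deg _)) (natDegree_reflect_le' (pol_deg _)),
      ← rv_cf, cf_pol, cf_pol] at h4
    exact h2.2 h4
  | coe z =>
    have hW := crit_coe hc
    rw [← wv_cf (pol_deg _) (pol_deg _), cf_pol, cf_pol] at hW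
    by_cases hz : z ∈ ball c ρ1
    · exact ⟨z, hz, rfl, hW⟩
    · exfalso
      refine h1 z ⟨⟨?_, hxF⟩, hz⟩ hW
      rw [mem_closedBall_zero_iff]
      by_contra hcon2
      exact h2.1 z (not_le.1 hcon2) hW

end Pool.Agent.H44.RG
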