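import Pool.Agent.H44.RG.NHO
import Pool.Agent.H44.RG.CHH
import Pool.Agent.H44.RG.GTD
import Pool.Agent.H44.RG.CST
import Pool.Agent.H44.RR.CHT

/-!
# Module GMN: THEOREM G from the dynamical statement `Hole d`
-/

set_option autoImplicit false

open Filter Topology Polynomial Metric Set MeasureTheory

namespace Pool.Agent.H44.RG

open Pool.Agent.H44.Fatou Pool.Agent.H32.BT Pool.Agent.H79.Eul Pool.Agent.H79.Par
open Pool.Agent.H35.EX Pool.Agent.H44.RR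

/-- the pieces of the exceptional set -/
def EP {d : ℕ} (T : (OnePoint ℂ → OnePoint ℂ) → OnePoint ℂ → Prop) (q : ℂ) (k : ℕ) (z0 : ℂ)
    (k' : ℕ) : Set (E d) :=
  {v | IsCoprime (pol v.1) (pol v.2) ∧ max (pol v.1).natDegree (pol v.2).natDegree = d ∧
    ∃ c, IsCrit (Rf v) c ∧ chord (q : OnePoint ℂ) c < 1 / ((k : ℝ) + 1) ∧
      (∀ c', IsCrit (Rf v) c' → chord (q : OnePoint ℂ) c' ≤ 1 / ((k : ℝ) + 1) → c' = c) ∧
      T (Rf v) (Rf v c) ∧
      ∀ j : ℕ, (Rf v)^[j] c ∉ ((↑) : ℂ → OnePoint ℂ) '' ball z0 (1 / ((k' : ℝ) + 1))}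

theorem pv_small {d : ℕ} {w0 : E d} {p : E d → Prop} (h : ∀ᶠ w in 𝓝 w0, p w) :
    ∀ᶠ r in 𝓝[>] (0 : ℝ), ∀ v ∈ ball (0 : E d) 1, p (pv w0 (v, r)) := by
  obtain ⟨ρ, hρ, hb⟩ := Metric.eventually_nhds_iff_ball.1 h
  have e1 : ∀ᶠ r in 𝓝[>] (0 : ℝ), r < ρ := nhdsWithin_le_nhds (gt_mem_nhds hρ)
  have e2 : ∀ᶠ r in 𝓝[>] (0 : ℝ), 0 < r := self_mem_nhdsWithin
  filter_upwards [e1, e2] with r hr1 hr2 v hv
  apply hb
  rw [mem_ball_iff_norm]
  show ‖w0 + r • v - w0‖ < ρ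
  rw [add_sub_cancel_left, norm_smul, Real.norm_of_nonneg hr2.le]
  have h7 : ‖v‖ < 1 := by simpa using hv
  calc r * ‖v‖ ≤ r * 1 := mul_le_mul_of_nonneg_left h7.le hr2.le
    _ = r := mul_one r
    _ < ρ := hr1

theorem ep_null {d : ℕ} (hd : 2 ≤ d) {T : (OnePoint ℂ → OnePoint ℂ) → OnePoint ℂ → Prop}
    (hTI : TInv T) (hole : HoleT d T) (q : ℂ) (k : ℕ) (z0 : ℂ) (k' : ℕ) :
    volume (EP T q k z0 k' : Set (E d)) = 0 := by
  apply null_of_holes
  rintro v0 ⟨hcop, hdeg, c, hc, hqc, huniq, hT, horb⟩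
  have hd1 : 1 ≤ max (pol v0.1).natDegree (pol v0.2).natDegree := by rw [hdeg]; omega
  obtain ⟨V0, hV0⟩ : ∃ V0 : Set (OnePoint ℂ),
      V0 = ((↑) : ℂ → OnePoint ℂ) '' ball z0 (1 / ((k' : ℝ) + 1)) := ⟨_, rfl⟩
  have hV0o : IsOpen V0 := by
    rw [hV0]
    exact OnePoint.isOpenEmbedding_coe.isOpenMap _ isOpen_ball
  have hV0n : ((z0 : ℂ) : OnePoint ℂ) ∈ V0 := by
    rw [hV0]
    exact ⟨z0, mem_ball_self (by positivity), rfl⟩
  rw [← hV0] at horb
  obtain ⟨X, hX⟩ : ∃ X : Set (OnePoint ℂ),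
      X = closure (Set.range fun k : ℕ => (Rf v0)^[k] c) := ⟨_, rfl⟩
  have hXV : ∀ x ∈ V0, x ∉ X := by
    intro x hx hxX
    rw [hX, _root_.mem_closure_iff] at hxX
    obtain ⟨y, hy, j, hj⟩ := hxX V0 hV0o hx
    apply horb j
    have hj' : (Rf v0)^[j] c = y := hj
    rw [hj']
    exact hy
  have hXc : IsClosed X := by
    rw [hX]
    exact isClosed_closure
  obtain ⟨s, φ, hsU, hφs, hφ, hφi, hall, h1⟩ := chart_ex hd hcop hdeg hXc.isOpen_compl
    ⟨_, hXV _ hV0n⟩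
  obtain ⟨hcop', hdeg', hconj⟩ := hall v0 hcop hdeg
  obtain ⟨L, hL, hbl⟩ := chord_bilip hφs hφ hφi
  have hcX : c ∈ X := by
    rw [hX]
    exact subset_closure ⟨0, rfl⟩
  have hcs : φ c ≠ OnePoint.infty := by
    intro h
    rw [← hφs] at h
    rw [φ.injective h] at hcX
    exact hsU hcX
  obtain ⟨c1, hc1⟩ := OnePoint.ne_infty_iff_exists.1 hcs
  have hc1' : φ c = (c1 : OnePoint ℂ) := hc1.symm
  have hcr : IsCrit (Rf (Lin s v0)) (c1 : OnePoint ℂ) := by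
    rw [← hc1', isCrit_conj φ hconj]
    exact hc
  have hw : wv (Lin s v0) c1 = 0 := by
    have h5 := crit_coe hcr
    rw [← wv_cf (d := d) (pol_deg _) (pol_deg _), cf_pol, cf_pol] at h5
    exact h5
  have hcv : Rf (Lin s v0) (c1 : OnePoint ℂ) = φ (Rf v0 c) := by
    rw [← hc1', hconj]
  have hcont : Continuous (Rf v0) := rat_continuous hcop
  have hrange : (Set.range fun k : ℕ => (Rf (Lin s v0))^[k] (c1 : OnePoint ℂ)) =
      φ '' (Set.range fun k : ℕ => (Rf v0)^[k] c) := by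
    ext y
    constructor
    · rintro ⟨j, rfl⟩
      refine ⟨(Rf v0)^[j] c, ⟨j, rfl⟩, ?_⟩
      show φ ((Rf v0)^[j] c) = (Rf (Lin s v0))^[j] (c1 : OnePoint ℂ)
      rw [← hc1', iter_conj φ hconj]
    · rintro ⟨_, ⟨j, rfl⟩, rfl⟩
      refine ⟨j, ?_⟩
      show (Rf (Lin s v0))^[j] (c1 : OnePoint ℂ) = φ ((Rf v0)^[j] c)
      rw [← hc1', iter_conj φ hconj]
  have hHol := hole (Lin s v0) h1 c1 hw
    (by rw [hcv]; exact hTI φ L hL hbl _ _ hcont hconj _ hT)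
    (by
      rw [hrange, ← φ.image_closure, ← hX]
      rintro ⟨x, hx, hx2⟩
      rw [← hφs] at hx2
      rw [φ.injective hx2] at hx
      exact hsU hx)
    (φ '' V0) (φ.isOpenMap _ hV0o) ⟨_, ⟨_, hV0n, rfl⟩⟩
    (by
      intro j
      rw [← hc1', iter_conj φ hconj]
      rintro ⟨y, hy, hy2⟩
      rw [φ.injective hy2] at hy
      exact horb j hy)
  obtain ⟨c0, hc0, ρ1, hρ1, hfr⟩ := hHol
  refine chart_holes s hc0 ?_
  have hFc : IsClosed (φ '' {x | chord (q : OnePoint ℂ) x ≤ 1 / ((k : ℝ) + 1)}) := by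
    apply φ.isClosedMap
    exact isClosed_le (chord_cont.comp (continuous_const.prodMk continuous_id)) continuous_const
  have hstay := crit_stay hd hcop' hdeg' h1.ninf (c := c1) hFc (by
    rintro _ hx ⟨x, hx2, rfl⟩
    rw [isCrit_conj φ hconj] at hx
    rw [huniq x hx hx2, hc1']) hρ1
  have hst := pv_small hstay
  refine (hfr.and_eventually hst).mono ?_
  rintro r ⟨⟨H, hHm, hHb, hHv, hHz⟩, hr⟩
  refine ⟨H, hHm, hHb, hHv, ?_⟩
  rintro w hwH v hv ⟨hvc, hvd, ĉ, hĉ, hqĉ, -, -, hvorb⟩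
  obtain ⟨-, -, hcj⟩ := hall v hvc hvd
  have h3 : IsCrit (Rf (pv (Lin s v0) (w, r))) (φ ĉ) := by
    rw [← hv, isCrit_conj φ hcj]
    exact hĉ
  obtain ⟨z, hz, hz2, hz3⟩ := hr w (hHb hwH) _ h3 ⟨ĉ, hqĉ.le, rfl⟩
  obtain ⟨j, hj⟩ := hHz w hwH z hz hz3
  rw [← hz2, ← hv, iter_conj φ hcj] at hj
  obtain ⟨y, hy, hy2⟩ := hj
  rw [φ.injective hy2, hV0] at hy
  exact hvorb j hy

/-- THEOREM G, from the dynamical statement, for a property `T` of the critical value -/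
theorem gt_main {d : ℕ} (hd : 2 ≤ d) {T : (OnePoint ℂ → OnePoint ℂ) → OnePoint ℂ → Prop}
    (hTI : TInv T) (hole : HoleT d T) :
    volume {v : E d | IsCoprime (pol v.1) (pol v.2) ∧
      max (pol v.1).natDegree (pol v.2).natDegree = d ∧ ∃ c, IsCrit (Rf v) c ∧
        T (Rf v) (Rf v c) ∧
        ¬ Dense (Set.range fun k : ℕ => (Rf v)^[k] c)} = 0 := by
  refine measure_mono_null (t := ⋃ i : ℕ, ⋃ k : ℕ, ⋃ i' : ℕ, ⋃ k' : ℕ,
    (EP T (TopologicalSpace.denseSeq ℂ i) k (TopologicalSpace.denseSeq ℂ i') k' : Set (E d)))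
    ?_ ?_
  swap
  · exact measure_iUnion_null fun i => measure_iUnion_null fun k =>
      measure_iUnion_null fun i' => measure_iUnion_null fun k' => ep_null hd hTI hole _ _ _ _
  rintro v ⟨hcop, hdeg, c, hc, hT, hden⟩
  have hd1 : 1 ≤ max (pol v.1).natDegree (pol v.2).natDegree := by rw [hdeg]; omega
  have hfin : {a | IsCrit (Rf v) a ∧ a ≠ c}.Finite :=
    (crit_finite hcop hd1).subset fun a ha => ha.1
  -- a positive lower bound for the distances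
  obtain ⟨η, hη, hηa⟩ : ∃ η : ℝ, 0 < η ∧ ∀ a ∈ {a | IsCrit (Rf v) a ∧ a ≠ c},
      η ≤ chord c a := by
    rcases Set.eq_empty_or_nonempty {a | IsCrit (Rf v) a ∧ a ≠ c} with he | hne
    · refine ⟨1, one_pos, fun a ha => ?_⟩
      rw [he] at ha
      exact absurd ha (Set.notMem_empty a)
    · obtain ⟨a0, ha0, hmin⟩ := hfin.exists_minimalFor (fun a => chord c a) _ hne
      refine ⟨chord c a0, chord_pos ha0.2.symm, fun a ha => ?_⟩
      rcases le_total (chord c a0) (chord c a) with h | h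
      · exact h
      · exact hmin ha h
  obtain ⟨k, hk⟩ := exists_nat_one_div_lt (half_pos hη)
  have hchc : ∀ a : OnePoint ℂ, Continuous fun x => chord x a := fun a =>
    chord_cont.comp (continuous_id.prodMk continuous_const)
  obtain ⟨O, hO⟩ : ∃ O : Set (OnePoint ℂ), O = {x | chord x c < 1 / ((k : ℝ) + 1)} ∩
      ⋂ a ∈ {a | IsCrit (Rf v) a ∧ a ≠ c}, {x | η / 2 < chord x a} := ⟨_, rfl⟩
  have hOo : IsOpen O := by
    rw [hO]
    refine (isOpen_lt (hchc c) continuous_const).inter ?_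
    exact hfin.isOpen_biInter fun a _ => isOpen_lt continuous_const (hchc a)
  have hcO : c ∈ O := by
    rw [hO]
    refine ⟨?_, ?_⟩
    · show chord c c < 1 / ((k : ℝ) + 1)
      rw [chord_zero]
      positivity
    · rw [Set.mem_iInter₂]
      intro a ha
      show η / 2 < chord c a
      have := hηa a ha
      linarith
  have hdr : DenseRange ((↑) : ℂ → OnePoint ℂ) := OnePoint.denseRange_coe
  have hne1 : (((↑) : ℂ → OnePoint ℂ) ⁻¹' O).Nonempty := by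
    obtain ⟨y, hy⟩ := hdr.exists_mem_open hOo ⟨c, hcO⟩
    exact ⟨y, hy⟩
  obtain ⟨i, hi⟩ := (TopologicalSpace.denseRange_denseSeq ℂ).exists_mem_open
    (hOo.preimage OnePoint.continuous_coe) hne1
  have hi' : ((TopologicalSpace.denseSeq ℂ i : ℂ) : OnePoint ℂ) ∈ O := hi
  rw [hO] at hi'
  obtain ⟨hi1, hi2⟩ := hi'
  rw [Set.mem_iInter₂] at hi2
  -- the open set avoided by the orbit
  have hWn : ((closure (Set.range fun k : ℕ => (Rf v)^[k] c))ᶜ).Nonempty := by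
    rw [Set.nonempty_compl]
    intro h
    exact hden (dense_iff_closure_eq.2 h)
  have hWo : IsOpen ((closure (Set.range fun k : ℕ => (Rf v)^[k] c))ᶜ) :=
    isClosed_closure.isOpen_compl
  obtain ⟨z, hz⟩ := hdr.exists_mem_open hWo hWn
  obtain ⟨r, hr, hball⟩ := Metric.isOpen_iff.1 (hWo.preimage OnePoint.continuous_coe) z hz
  obtain ⟨k', hk'⟩ := exists_nat_one_div_lt (half_pos hr)
  obtain ⟨i', hi3⟩ := (TopologicalSpace.denseRange_denseSeq ℂ).exists_mem_open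
    (isOpen_ball (x := z) (ε := r / 2)) ⟨z, mem_ball_self (half_pos hr)⟩
  refine mem_iUnion.2 ⟨i, mem_iUnion.2 ⟨k, mem_iUnion.2 ⟨i', mem_iUnion.2 ⟨k', hcop, hdeg, c, hc,
    hi1, ?_, hT, ?_⟩⟩⟩⟩
  · intro c' hc' hle
    by_contra hne
    have h1 : η / 2 < chord ((TopologicalSpace.denseSeq ℂ i : ℂ) : OnePoint ℂ) c' :=
      hi2 c' ⟨hc', hne⟩
    linarith
  · rintro j ⟨y, hy, hy2⟩
    have h1 : y ∈ ball z r := by
      rw [mem_ball] at hy hi3 ⊢
      have h2 := dist_triangle y (TopologicalSpace.denseSeq ℂ i') z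
      linarith
    have h3 := hball h1
    apply h3
    have hy2' : ((y : ℂ) : OnePoint ℂ) = (Rf v)^[j] c := hy2
    rw [hy2']
    exact subset_closure ⟨j, rfl⟩

/-- THEOREM G, from the dynamical statement -/
theorem g_main {d : ℕ} (hd : 2 ≤ d) (hole : Hole d) :
    volume {v : E d | IsCoprime (pol v.1) (pol v.2) ∧
      max (pol v.1).natDegree (pol v.2).natDegree = d ∧ ∃ c, IsCrit (Rf v) c ∧
        Summ (Rf v) (Rf v c) ∧ Con (Rf v) (Rf v c) ∧
        ¬ Dense (Set.range fun k : ℕ => (Rf v)^[k] c)} = 0 := by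
  refine measure_mono_null ?_ (gt_main hd tinv_sc
    (fun v0 h1 c hc hT hcl V hV hVn hj => hole v0 h1 c hc hT.1 hT.2 hcl V hV hVn hj))
  rintro v ⟨hcop, hdeg, c, hc, hS, hC, hden⟩
  exact ⟨hcop, hdeg, c, hc, ⟨hS, hC⟩, hden⟩

/-- THEOREM G+, from the dynamical statement -/
theorem gce_main {d : ℕ} (hd : 2 ≤ d) (hole : HoleT d CEx) :
    volume {v : E d | IsCoprime (pol v.1) (pol v.2) ∧
      max (pol v.1).natDegree (pol v.2).natDegree = d ∧ ∃ c, IsCrit (Rf v) c ∧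
        CEx (Rf v) (Rf v c) ∧
        ¬ Dense (Set.range fun k : ℕ => (Rf v)^[k] c)} = 0 :=
  gt_main hd tinv_ce hole

/-- THEOREM G+, from the two dynamical statements -/
theorem gg_main {d : ℕ} (hd : 2 ≤ d) (hole : HoleT d TG) :
    volume {v : E d | IsCoprime (pol v.1) (pol v.2) ∧
      max (pol v.1).natDegree (pol v.2).natDegree = d ∧ ∃ c, IsCrit (Rf v) c ∧
        TG (Rf v) (Rf v c) ∧
        ¬ Dense (Set.range fun k : ℕ => (Rf v)^[k] c)} = 0 :=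
  gt_main hd tinv_tg hole

end Pool.Agent.H44.RG
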