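import Pool.Agent.H44.RG.PlD
import Pool.Agent.H44.RR.CNT

/-!
# Module PLA: there are two critical points

PROOF. Let `a = pol v0.1`, `b = pol v0.2`, `W = ww a b`; `wv v0 z = W.eval z` (`wv_pol`, H61/TT/Surj). `b.eval c ≠ 0`: `Rf v0 c ≠ ∞` (`h0.fin`, `crit_of_wr`). `W ≠ 0` (`ww_ne`). Suppose `c` is the only root of `W`. Then `W = C k * (X - C c) ^ N`
(split polynomial; `N = natDegree W = rootMultiplicity c W`). (1) `N = 2 d - 2`: `N ≤ 2 d - 2` (`ww_deg`, H44/RR/CNT); if `N < 2 d - 2` then the coefficient of `X ^ (2 d - 2)` of `W` is `0` and infinity is critical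
(`crit_infty_of_wr`: `wv (rv v0) 0 = 0`; `wv (rv v0) 0` is up to sign the coefficient of `X ^ (2 d - 2)` of `W`: see the lemma on `wv (rv ..)` and `no_crit_infty`, or: `ww` of the reflected polynomials is `-` the reflection of `W` (H32/BT)), against `h0.ninf`.
(2) `rootMultiplicity c W ≤ d - 1`: let `x = a c / b c`, `F = fib a b x = a - C x * b`, `F ≠ 0`, `natDegree F ≤ d`, `e = rootMultiplicity c F`, `1 ≤ e ≤ d`. `W = derivative F * b - F * derivative b` (`ring`). `(X - C c) ^ e ∣ F`; if `(X - C c) ^ e ∣ W` then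
`(X - C c) ^ e ∣ derivative F * b`, so it divides `derivative F` (`b.eval c ≠ 0`, coprimality), but `rootMultiplicity c (derivative F) = e - 1` (`Polynomial.derivative_rootMultiplicity_of_root`) and `derivative F ≠ 0`. So the multiplicity is at most `e - 1 ≤ d - 1`.
(1), (2): `2 d - 2 ≤ d - 1`, against `2 ≤ d`. So `W` has a root `c' ≠ c` (`IsAlgClosed`).
-/

set_option autoImplicit false

open Filter Topology Polynomial Metric Set

namespace Pool.Agent.H44.RG

open Pool.Agent.H44.Fatou Pool.Agent.H32.BT Pool.Agent.H79.Eul Pool.Agent.H79.Par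
open Pool.Agent.H61.TT Pool.Agent.H44.RR

private theorem coeff_two {P Q : Polynomial ℂ} {e : ℕ} (hP : P.natDegree ≤ e + 1)
    (hQ : Q.natDegree ≤ e + 2) :
    (P * Q).coeff (2 * e + 2) = P.coeff e * Q.coeff (e + 2) + P.coeff (e + 1) * Q.coeff (e + 1) := by
  rw [coeff_mul, Finset.Nat.sum_antidiagonal_eq_sum_range_succ
    (fun i j => P.coeff i * Q.coeff j), Finset.sum_eq_add e (e + 1)]
  · have e1 : 2 * e + 2 - e = e + 2 := by omega
    have e2 : 2 * e + 2 - (e + 1) = e + 1 := by omega
    rw [e1, e2]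
  · omega
  · intro k hk hne
    rcases Nat.lt_or_ge k e with h1 | h1
    · rw [coeff_eq_zero_of_natDegree_lt (p := Q) (by omega), mul_zero]
    · rw [coeff_eq_zero_of_natDegree_lt (p := P) (by omega), zero_mul]
  · intro h
    exact absurd (Finset.mem_range.2 (by omega)) h
  · intro h
    exact absurd (Finset.mem_range.2 (by omega)) h

private theorem wr_reflect {a b : Polynomial ℂ} {e : ℕ} (ha : a.natDegree ≤ e + 2)
    (hb : b.natDegree ≤ e + 2) :
    (Wr (reflect (e + 2) a) (reflect (e + 2) b)).eval 0 = -(ww a b).coeff (2 * e + 2) := by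
  have hA : (derivative a).natDegree ≤ e + 1 := (natDegree_derivative_le a).trans (by omega)
  have hB : (derivative b).natDegree ≤ e + 1 := (natDegree_derivative_le b).trans (by omega)
  have h1 : (ww a b).coeff (2 * e + 2) =
      (derivative a).coeff e * b.coeff (e + 2) + (derivative a).coeff (e + 1) * b.coeff (e + 1) -
      ((derivative b).coeff e * a.coeff (e + 2) +
        (derivative b).coeff (e + 1) * a.coeff (e + 1)) := by
    unfold ww
    rw [coeff_sub, coeff_two hA hb, mul_comm a, coeff_two hB ha]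
  rw [h1, coeff_derivative, coeff_derivative, coeff_derivative, coeff_derivative]
  have h0 : ∀ P : Polynomial ℂ, (reflect (e + 2) P).eval 0 = P.coeff (e + 2) := by
    intro P
    rw [← coeff_zero_eq_eval_zero, coeff_reflect, revAt_zero]
  have h2 : ∀ P : Polynomial ℂ, (derivative (reflect (e + 2) P)).eval 0 = P.coeff (e + 1) := by
    intro P
    rw [← coeff_zero_eq_eval_zero, coeff_derivative, coeff_reflect, revAt_le (by omega)]
    have : e + 2 - (0 + 1) = e + 1 := by omega
    rw [this]
    simp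
  unfold Wr
  rw [eval_sub, eval_mul, eval_mul, h0, h0, h2, h2]
  push_cast
  ring

private theorem mult_le {d : ℕ} {a b : Polynomial ℂ} (h : RatD d a b) {c : ℂ}
    (hb : b.eval c ≠ 0) : rootMultiplicity c (ww a b) < d := by
  obtain ⟨x, hx⟩ : ∃ x, x = a.eval c / b.eval c := ⟨_, rfl⟩
  obtain ⟨F, hF⟩ : ∃ F, F = fib a b x := ⟨_, rfl⟩
  have hF0 : F ≠ 0 := by
    rw [hF]
    exact fib_ne h x
  have hroot : F.IsRoot c := by
    rw [hF, IsRoot.def]
    unfold fib
    rw [eval_sub, eval_mul, eval_C, hx, div_mul_cancel₀ _ hb, sub_self]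
  have hdeg : F.natDegree ≤ d := by
    rw [hF]
    unfold fib
    refine (natDegree_sub_le _ _).trans ?_
    rw [← h.deg]
    exact max_le_max le_rfl (natDegree_C_mul_le x b)
  have he1 : 0 < rootMultiplicity c F := (rootMultiplicity_pos hF0).2 hroot
  have he2 : rootMultiplicity c F ≤ d := by
    have h1 := natDegree_le_of_dvd (pow_rootMultiplicity_dvd F c) hF0
    rw [natDegree_pow, natDegree_X_sub_C, mul_one] at h1
    exact h1.trans hdeg
  have hD0 : derivative F ≠ 0 := by
    intro h0
    have h1 := derivative_eq_zero.1 h0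
    rw [natDegree_eq_zero] at h1
    obtain ⟨t, ht⟩ := h1
    rw [← ht, IsRoot.def, eval_C] at hroot
    rw [hroot, C_0] at ht
    exact hF0 ht.symm
  have hW : ww a b = derivative F * b - F * derivative b := by
    rw [hF]
    unfold ww fib
    rw [derivative_sub, derivative_C_mul]
    ring
  have hcopr : IsCoprime ((X - C c) ^ rootMultiplicity c F) b := by
    apply IsCoprime.pow_left
    rw [Irreducible.coprime_iff_not_dvd (irreducible_X_sub_C c), dvd_iff_isRoot]
    exact hb
  by_contra hcon
  push Not at hcon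
  have h1 : (X - C c) ^ rootMultiplicity c F ∣ ww a b :=
    (le_rootMultiplicity_iff (ww_ne h)).1 (he2.trans hcon)
  have h2 : (X - C c) ^ rootMultiplicity c F ∣ derivative F * b := by
    have h3 : derivative F * b = ww a b + F * derivative b := by
      rw [hW]
      ring
    rw [h3]
    exact dvd_add h1 ((pow_rootMultiplicity_dvd F c).mul_right _)
  have h4 := hcopr.dvd_of_dvd_mul_right h2
  have h5 := (le_rootMultiplicity_iff hD0).2 h4
  rw [derivative_rootMultiplicity_of_root hroot] at h5
  omega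

theorem two_crit {d : ℕ} (hd : 2 ≤ d) {v0 : E d} (h0 : Chart1 v0) {c : ℂ} (hc : wv v0 c = 0) :
    ∃ c' : ℂ, c' ≠ c ∧ wv v0 c' = 0 := by
  obtain ⟨a, ha⟩ : ∃ a, a = pol v0.1 := ⟨_, rfl⟩
  obtain ⟨b, hb⟩ : ∃ b, b = pol v0.2 := ⟨_, rfl⟩
  have hR : RatD d a b := by
    rw [ha, hb]
    exact ⟨hd, h0.cop, h0.deg⟩
  have hmax : 1 ≤ max a.natDegree b.natDegree := by
    rw [hR.deg]
    omega
  have hwc : (ww a b).eval c = 0 := by
    rw [ha, hb, ← wv_pol]
    exact hc
  have hcrit : IsCrit (Rf v0) (c : OnePoint ℂ) := by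
    have h1 := crit_of_wr hR.cop hmax (c := c) hwc
    rw [ha, hb] at h1
    exact h1
  have hbc : b.eval c ≠ 0 := by
    intro h1
    have h2 := h0.fin _ hcrit 1
    apply h2
    rw [Function.iterate_one]
    unfold Rf
    rw [rat_coe]
    unfold pt
    rw [← hb, if_pos h1]
  have hmult := mult_le hR hbc
  by_contra hcon
  push Not at hcon
  have hall : ∀ z ∈ (ww a b).roots, c = z := by
    intro z hz
    rw [mem_roots (ww_ne hR), IsRoot.def] at hz
    by_contra hne
    refine hcon z (fun h => hne h.symm) ?_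
    rw [wv_pol, ← ha, ← hb]
    exact hz
  have hcount : rootMultiplicity c (ww a b) = (ww a b).natDegree := by
    rw [← count_roots, Multiset.count_eq_card.2 hall]
    exact (IsAlgClosed.splits (ww a b)).natDegree_eq_card_roots.symm
  obtain ⟨e, he⟩ : ∃ e, d = e + 2 := ⟨d - 2, by omega⟩
  have hcoef : (ww a b).coeff (2 * e + 2) ≠ 0 := by
    intro h1
    apply h0.ninf
    have hdg : Pool.Agent.H44.Fatou.dg a b = e + 2 := by
      unfold Pool.Agent.H44.Fatou.dg
      rw [hR.deg, he]
    have hA : a.natDegree ≤ e + 2 := by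
      rw [← he, ← hR.deg]
      exact le_max_left _ _
    have hB : b.natDegree ≤ e + 2 := by
      rw [← he, ← hR.deg]
      exact le_max_right _ _
    have h2 := crit_infty_of_wr hR.cop hmax (by
      rw [hdg, wr_reflect hA hB, h1, neg_zero])
    rw [ha, hb] at h2
    exact h2
  have hle := le_natDegree_of_ne_zero hcoef
  omega

end Pool.Agent.H44.RG
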