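import Pool.Agent.H44.RG.GDf
import Pool.Agent.H61.TT.Fib

/-!
# The plane data of a critical orbit with summable and conical value

`p k` is the orbit of the critical point `p 0`, in a chart in which it is bounded and away from the poles. For `n ∈ S` the inverse
branches `h j` of `f^(n - j)` along the orbit are defined on the disc of radius `δ` around `p (n + 1)`, with values in the disc of
radius `ε0` around `p (j + 1)`.
-/

set_option autoImplicit false

open Filter Topology Polynomial Metric Set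

namespace Pool.Agent.H44.RG

open Pool.Agent.H44.Fatou Pool.Agent.H32.BT Pool.Agent.H79.Eul Pool.Agent.H79.Par
open Pool.Agent.H61.TT

/-- the plane data -/
structure Pl {d : ℕ} (v0 : E d) (p : ℕ → ℂ) (ε0 δ : ℝ) (S : Set ℕ) : Prop where
  cop : IsCoprime (pol v0.1) (pol v0.2)
  deg : max (pol v0.1).natDegree (pol v0.2).natDegree = d
  orb : ∀ j, Orb v0 p j
  crit : wv v0 (p 0) = 0
  bdd : ∃ R : ℝ, ∀ k, ‖p k‖ ≤ R
  den : ∃ β : ℝ, 0 < β ∧ ∀ k, ∀ z ∈ ball (p k) ε0, β ≤ ‖ev v0.2 z‖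
  tr : ∀ k, trD v0 k (p 1) ≠ 0
  sm : Summable fun k => ‖trD v0 k (p 1)‖⁻¹
  fdeg : ∀ k, (fib (pol v0.1) (pol v0.2) (p (k + 1))).natDegree = d
  hε : 0 < ε0
  hδ : 0 < δ
  inf : S.Infinite
  con : ∀ n ∈ S, ∃ h : ℕ → ℂ → ℂ,
    (∀ z ∈ ball (p (n + 1)) δ, h n z = z) ∧
    (∀ j ≤ n, h j (p (n + 1)) = p (j + 1) ∧ DifferentiableOn ℂ (h j) (ball (p (n + 1)) δ) ∧
      MapsTo (h j) (ball (p (n + 1)) δ) (ball (p (j + 1)) ε0)) ∧
    ∀ j < n, ∀ z ∈ ball (p (n + 1)) δ, gg (pol v0.1) (pol v0.2) (h j z) = h (j + 1) z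

end Pool.Agent.H44.RG
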